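import Pool.Agent.Lib.TG_h33.Wr

/-!
# TANK G, block G1: the determinant `W(f)`, separability, generic values
-/

set_option autoImplicit false

open Finset Submodule Module

namespace Pool.Agent.TGh33

section sep

variable {k K : Type*} [Field k] [Field K] [Algebra k K] {n : ℕ}

/-- A derivation which kills `L` is `L`-linear. -/
noncomputable def toL (δ : Derivation k K K) (L : IntermediateField k K)
    (h : ∀ x ∈ L, δ x = 0) : Derivation L K K :=
  Derivation.mk'
    { toFun := δ
      map_add' := δ.map_add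
      map_smul' := fun c x => by
        rw [RingHom.id_apply, Algebra.smul_def, δ.leibniz]
        have h1 : δ (algebraMap L K c) = 0 := h _ c.2
        rw [h1, smul_zero, add_zero, Algebra.smul_def c (δ x), smul_eq_mul] }
    δ.leibniz

theorem toL_apply (δ : Derivation k K K) (L : IntermediateField k K) (h : ∀ x ∈ L, δ x = 0)
    (x : K) : toL δ L h x = δ x := rfl

/-- A derivation which kills `L` is zero if `K / L` is separable. -/
theorem eq_zero_of_sep (δ : Derivation k K K) (L : IntermediateField k K)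
    (h : ∀ x ∈ L, δ x = 0) [Algebra.IsSeparable L K] (x : K) : δ x = 0 := by
  have := Algebra.FormallyUnramified.of_isSeparable L K
  have h1 := (toL δ L h).liftKaehlerDifferential_comp_D x
  rw [Subsingleton.elim (KaehlerDifferential.D L K x) 0, map_zero] at h1
  rw [← toL_apply δ L h x, ← h1]

/-- `K / L` is separable if the derivations which kill `L` are zero. -/
theorem sep_of_forall [Algebra.EssFiniteType k K] (L : IntermediateField k K)
    (h : ∀ δ : Derivation k K K, (∀ x ∈ L, δ x = 0) → ∀ x, δ x = 0) :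
    Algebra.IsSeparable L K := by
  have := Algebra.EssFiniteType.of_comp k L K
  rw [← Algebra.FormallyUnramified.iff_isSeparable]
  refine ⟨?_⟩
  have h1 : ∀ x : K, KaehlerDifferential.D L K x = 0 := by
    intro x
    rw [← Module.forall_dual_apply_eq_zero_iff K]
    intro φ
    obtain ⟨d, hd⟩ : ∃ d : Derivation L K K, ∀ y, d y = φ (KaehlerDifferential.D L K y) :=
      ⟨KaehlerDifferential.linearMapEquivDerivation L K φ, fun y => rfl⟩
    rw [← hd]
    refine h (d.restrictScalars k) (fun y hy => ?_) x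
    exact d.map_algebraMap (⟨y, hy⟩ : L)
  refine subsingleton_of_forall_eq 0 fun ω => ?_
  have h2 : ω ∈ Submodule.span K (Set.range (KaehlerDifferential.D L K)) := by
    rw [KaehlerDifferential.span_range_derivation]; exact Submodule.mem_top
  have h3 : Set.range (KaehlerDifferential.D L K) ⊆ {0} := by
    rintro _ ⟨x, rfl⟩
    exact h1 x
  have h4 := Submodule.span_mono h3 h2
  rwa [Submodule.span_zero_singleton, Submodule.mem_bot] at h4

/-- The subfield generated by the quotients. -/
def quo (k : Type*) {K : Type*} [Field k] [Field K] [Algebra k K] {n : ℕ}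
    (f : Fin (n + 1) → K) : IntermediateField k K :=
  IntermediateField.adjoin k (Set.range fun j : Fin n => f j.succ / f 0)

/-- `W(f) ≠ 0` iff `K` is separable over `k(f_1 / f_0, .., f_n / f_0)`. -/
theorem Wr_ne_zero_iff [Algebra.EssFiniteType k K] {D : Fin n → Derivation k K K} {z : Fin n → K}
    (hD : DB D z) (f : Fin (n + 1) → K) (h0 : f 0 ≠ 0) :
    Wr D f ≠ 0 ↔ Algebra.IsSeparable (quo k f) K := by
  rw [Ne, Wr_eq_zero_iff D f h0]
  constructor
  · intro h
    refine sep_of_forall _ fun δ hδ x => ?_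
    have h1 : ∀ x, δ x = comb D (fun i => δ (z i)) x := fun x => by
      rw [comb_apply]; exact hD.span δ x
    by_contra hx
    apply h
    refine ⟨fun i => δ (z i), ?_, fun j => ?_⟩
    · intro h2
      apply hx
      rw [h1, comb_apply]
      exact Finset.sum_eq_zero fun i _ => by rw [congrFun h2 i, Pi.zero_apply, zero_mul]
    · rw [← h1]
      exact hδ _ (IntermediateField.subset_adjoin _ _ ⟨j, rfl⟩)
  · rintro h ⟨a, ha, hj⟩
    apply ha
    funext i
    have h1 : quo k f ≤ consts (comb D a) := by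
      unfold quo
      rw [IntermediateField.adjoin_le_iff]
      rintro _ ⟨j, rfl⟩
      exact hj j
    rw [← hD.comb_z a i]
    exact eq_zero_of_sep (comb D a) (quo k f) (fun x hx => h1 hx) (z i)

/-- If `W = 0` on `S` then a non-zero combination of the `D_i` kills the quotients of elements
of `S`. -/
theorem exists_comb_of_Wr_eq_zero (D : Fin n → Derivation k K K) (S : Submodule k K)
    {g : K} (hg : g ∈ S) (hg0 : g ≠ 0)
    (hW : ∀ f : Fin (n + 1) → K, (∀ j, f j ∈ S) → Wr D f = 0) :
    ∃ a : Fin n → K, a ≠ 0 ∧ ∀ f ∈ S, comb D a (f / g) = 0 := by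
  classical
  obtain ⟨s, hs⟩ : ∃ s : Set (Fin n → K), s = (fun f : K => fun i => D i (f / g)) '' (S : Set K) :=
    ⟨_, rfl⟩
  have hlt : Submodule.span K s < ⊤ := by
    rw [lt_top_iff_ne_top]
    intro htop
    obtain ⟨b, hb, -, hind⟩ := exists_fun_fin_finrank_span_eq K s
    have hfr : finrank K (Submodule.span K s) = n := by
      rw [htop, finrank_top, Module.finrank_fin_fun]
    obtain ⟨e, he⟩ : ∃ e : Fin n ≃ Fin (finrank K (Submodule.span K s)), True :=
      ⟨finCongr hfr.symm, trivial⟩
    have h1 : ∀ j : Fin n, ∃ f ∈ S, b (e j) = fun i => D i (f / g) := by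
      intro j
      have h2 : ∀ u ∈ s, ∃ f ∈ S, u = fun i => D i (f / g) := by
        intro u hu
        rw [hs] at hu
        obtain ⟨f, hf, hfu⟩ := hu
        exact ⟨f, hf, hfu.symm⟩
      exact h2 _ (hb (e j))
    choose f hf hfb using h1
    have hind' : LinearIndependent K fun j : Fin n => (fun i => D i (f j / g)) := by
      have h3 := hind.comp e e.injective
      have h4 : (b ∘ e) = fun j : Fin n => (fun i => D i (f j / g)) := by
        funext j
        exact hfb j
      rwa [h4] at h3
    have h5 := hW (Fin.cons g f) (fun j => by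
      refine Fin.cases ?_ (fun j => ?_) j
      · exact hg
      · exact hf j)
    rw [Wr_eq D _ (by exact hg0), mul_eq_zero,
      or_iff_right (pow_ne_zero _ (show (Fin.cons g f : Fin (n + 1) → K) 0 ≠ 0 from hg0))] at h5
    have h6 : IsUnit (Matrix.of fun j i : Fin n => D i (f j / g)).det := by
      rw [← Matrix.isUnit_iff_isUnit_det, ← Matrix.linearIndependent_rows_iff_isUnit]
      exact hind'
    exact h6.ne_zero h5
  obtain ⟨φ, hφ0, hφ⟩ := Submodule.exists_dual_map_eq_bot_of_lt_top hlt inferInstance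
  have hφa : ∀ u : Fin n → K, φ u = ∑ i, u i * φ (Pi.single i 1) := by
    intro u
    conv_lhs => rw [pi_eq_sum_univ' u]
    rw [map_sum]
    refine Finset.sum_congr rfl fun i _ => ?_
    rw [map_smul, smul_eq_mul]
  refine ⟨fun i => φ (Pi.single i 1), ?_, ?_⟩
  · intro h
    apply hφ0
    refine LinearMap.ext fun u => ?_
    rw [hφa, LinearMap.zero_apply]
    exact Finset.sum_eq_zero fun i _ => by rw [congrFun h i, Pi.zero_apply, mul_zero]
  · intro f hf
    have h1 : φ (fun i => D i (f / g)) = 0 := by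
      have h2 : φ (fun i => D i (f / g)) ∈ (Submodule.span K s).map φ :=
        ⟨_, Submodule.subset_span (by rw [hs]; exact ⟨f, hf, rfl⟩), rfl⟩
      rw [hφ, Submodule.mem_bot] at h2
      exact h2
    rw [comb_apply, ← h1, hφa]
    exact Finset.sum_congr rfl fun i _ => mul_comm _ _

/-- If `W = 0` on `S ≤ V ^ m` then `p dim S ≤ dim V ^ (m + c (p - 1))`. -/
theorem sep_dim {p : ℕ} [CharP K p] (hp : 0 < p) {D : Fin n → Derivation k K K} {z : Fin n → K}
    (hD : DB D z) (S V : Submodule k K) [FiniteDimensional k V] (h1 : (1 : K) ∈ V) {m c : ℕ}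
    (hS : S ≤ V ^ m) (hz : ∀ i, z i ∈ V ^ c)
    (hW : ∀ f : Fin (n + 1) → K, (∀ j, f j ∈ S) → Wr D f = 0) :
    p * finrank k S ≤ finrank k ↥(V ^ (m + c * (p - 1))) := by
  classical
  have hmono : ∀ {a b : ℕ}, a ≤ b → V ^ a ≤ V ^ b := fun {a b} hab =>
    pow_le_pow_right₀ (Submodule.one_le.2 h1) hab
  have hfdV : ∀ a : ℕ, FiniteDimensional k ↥(V ^ a) := fun a =>
    Module.Finite.iff_fg.2 (Submodule.FG.pow (Module.Finite.iff_fg.1 inferInstance) a)
  have := hfdV m
  have := hfdV (m + c * (p - 1))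
  have hfdS : FiniteDimensional k S := Submodule.finiteDimensional_of_le hS
  by_cases hbot : S = ⊥
  · rw [hbot, finrank_bot, mul_zero]; exact Nat.zero_le _
  obtain ⟨g, hg, hg0⟩ := Submodule.exists_mem_ne_zero_of_ne_bot hbot
  obtain ⟨a, ha, hkill⟩ := exists_comb_of_Wr_eq_zero D S hg hg0 hW
  obtain ⟨i₀, hi₀⟩ : ∃ i, a i ≠ 0 := by
    by_contra h
    push Not at h
    exact ha (funext h)
  have hw : comb D a (z i₀) ≠ 0 := by rw [hD.comb_z]; exact hi₀
  have hmem : ∀ (s : Fin p → S), ∑ j : Fin p, z i₀ ^ (j : ℕ) * (s j : K) ∈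
      V ^ (m + c * (p - 1)) := by
    intro s
    refine sum_mem fun j _ => ?_
    have h2 : z i₀ ^ (j : ℕ) ∈ V ^ (c * (j : ℕ)) := by
      rw [pow_mul]; exact Submodule.pow_mem_pow _ (hz i₀) _
    have h3 : z i₀ ^ (j : ℕ) * (s j : K) ∈ V ^ (c * (j : ℕ) + m) := by
      rw [pow_add]; exact Submodule.mul_mem_mul h2 (hS (s j).2)
    refine hmono ?_ h3
    have h4 : (j : ℕ) ≤ p - 1 := by have := j.2; omega
    have h5 := Nat.mul_le_mul_left c h4
    omega
  obtain ⟨T, hT⟩ : ∃ T : (Fin p → S) →ₗ[k] ↥(V ^ (m + c * (p - 1))),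
      ∀ s, (T s : K) = ∑ j : Fin p, z i₀ ^ (j : ℕ) * (s j : K) := by
    refine ⟨{ toFun := fun s => ⟨_, hmem s⟩
              map_add' := fun s t => ?_
              map_smul' := fun b s => ?_ }, fun s => rfl⟩
    · apply Subtype.ext
      change ∑ j : Fin p, z i₀ ^ (j : ℕ) * ((s j : K) + (t j : K)) = _ + _
      rw [← Finset.sum_add_distrib]
      exact Finset.sum_congr rfl fun j _ => mul_add _ _ _
    · apply Subtype.ext
      change ∑ j : Fin p, z i₀ ^ (j : ℕ) * (b • (s j : K)) = b • _
      rw [Finset.smul_sum]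
      exact Finset.sum_congr rfl fun j _ => by rw [mul_smul_comm]
  have hinj : Function.Injective T := by
    rw [← LinearMap.ker_eq_bot, LinearMap.ker_eq_bot']
    intro s hs
    have h2 : ∑ j : Fin p, z i₀ ^ (j : ℕ) * (s j : K) = 0 := by rw [← hT, hs]; rfl
    obtain ⟨cc, hcc⟩ : ∃ cc : ℕ → K, cc = fun i => if h : i < p then (s ⟨i, h⟩ : K) / g else 0 :=
      ⟨_, rfl⟩
    have h3 : ∑ i ∈ range p, cc i * z i₀ ^ i = 0 := by
      rw [Finset.sum_range fun i => cc i * z i₀ ^ i]
      have h4 : ∀ j : Fin p, cc j * z i₀ ^ (j : ℕ) = (z i₀ ^ (j : ℕ) * (s j : K)) / g := by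
        intro j
        rw [hcc]
        simp only [dif_pos j.2]
        ring
      rw [Finset.sum_congr rfl fun j _ => h4 j, ← Finset.sum_div, h2, zero_div]
    have h5 := pow_indep (comb D a) hw p le_rfl cc (fun i => by
      rw [hcc]
      by_cases h : i < p
      · simp only [dif_pos h]
        exact hkill _ (s ⟨i, h⟩).2
      · simp only [dif_neg h, map_zero]) h3
    funext j
    apply Subtype.ext
    have h6 := h5 j j.2
    rw [hcc] at h6
    simp only [dif_pos j.2] at h6
    rw [div_eq_zero_iff, or_iff_left hg0] at h6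
    exact h6
  have h7 := LinearMap.finrank_le_finrank_of_injective hinj
  rwa [Module.finrank_pi_fintype, Finset.sum_const, Finset.card_univ, Fintype.card_fin,
    smul_eq_mul] at h7

end sep

section generic

variable {k : Type*} [Field k] [Infinite k]

/-- Finitely many non-zero multilinear maps have a common non-zero. -/
theorem exists_generic {ι α : Type*} [Fintype ι] [Fintype α] {S : Type*} [AddCommGroup S]
    [Module k S] [FiniteDimensional k S] {M : α → Type*} [∀ q, AddCommGroup (M q)]
    [∀ q, Module k (M q)] (W : ∀ q, MultilinearMap k (fun _ : ι => S) (M q))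
    (hW : ∀ q, ∃ f, W q f ≠ 0) : ∃ f : ι → S, ∀ q, W q f ≠ 0 := by
  classical
  obtain ⟨b, hb⟩ : ∃ b : Basis (Fin (finrank k S)) k S, True := ⟨Module.finBasis k S, trivial⟩
  choose f₀ hf₀ using hW
  have h1 : ∀ q, ∃ φ : Module.Dual k (M q), φ (W q (f₀ q)) ≠ 0 := fun q =>
    Module.Projective.exists_dual_ne_zero k (hf₀ q)
  choose φ hφ using h1
  obtain ⟨P, hP⟩ : ∃ P : α → MvPolynomial (ι × Fin (finrank k S)) k, ∀ q, P q =
      ∑ r : ι → Fin (finrank k S), MvPolynomial.C (φ q (W q fun i => b (r i))) *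
        ∏ i, MvPolynomial.X (i, r i) := ⟨_, fun q => rfl⟩
  have heval : ∀ q (c : ι → Fin (finrank k S) → k),
      MvPolynomial.eval (fun x => c x.1 x.2) (P q) = φ q (W q fun i => ∑ j, c i j • b j) := by
    intro q c
    rw [hP, map_sum, (W q).map_sum, map_sum]
    refine Finset.sum_congr rfl fun r _ => ?_
    rw [map_mul, MvPolynomial.eval_C, map_prod, (W q).map_smul_univ, map_smul, smul_eq_mul,
      mul_comm]
    congr 1
    exact Finset.prod_congr rfl fun i _ => MvPolynomial.eval_X _
  have hP0 : ∀ q, P q ≠ 0 := by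
    intro q h
    apply hφ q
    have h2 := heval q fun i => b.repr (f₀ q i)
    rw [h, map_zero] at h2
    simp only [b.sum_repr] at h2
    exact h2.symm
  have hprod : ∏ q, P q ≠ 0 := Finset.prod_ne_zero_iff.2 fun q _ => hP0 q
  obtain ⟨x, hx⟩ : ∃ x, MvPolynomial.eval x (∏ q, P q) ≠ 0 := by
    by_contra h
    push Not at h
    exact hprod (MvPolynomial.funext fun x => by rw [h x, map_zero])
  rw [map_prod, Finset.prod_ne_zero_iff] at hx
  refine ⟨fun i => ∑ j, x (i, j) • b j, fun q h => ?_⟩
  apply hx q (Finset.mem_univ _)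
  have h2 := heval q fun i j => x (i, j)
  rw [h, map_zero] at h2
  exact h2

/-- Finitely many proper conditions on the value of a multilinear map. -/
theorem exists_generic_notMem {ι α : Type*} [Fintype ι] [Fintype α] {S : Type*} [AddCommGroup S]
    [Module k S] [FiniteDimensional k S] {M : Type*} [AddCommGroup M] [Module k M]
    (W : MultilinearMap k (fun _ : ι => S) M) (B : α → Submodule k M)
    (hB : ∀ q, ∃ f, W f ∉ B q) : ∃ f : ι → S, ∀ q, W f ∉ B q := by
  obtain ⟨f, hf⟩ := exists_generic (fun q => (B q).mkQ.compMultilinearMap W) (fun q => by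
    obtain ⟨f, hf⟩ := hB q
    refine ⟨f, ?_⟩
    rw [LinearMap.compMultilinearMap_apply, Submodule.mkQ_apply, Ne,
      Submodule.Quotient.mk_eq_zero]
    exact hf)
  refine ⟨f, fun q h => hf q ?_⟩
  rw [LinearMap.compMultilinearMap_apply, Submodule.mkQ_apply, Submodule.Quotient.mk_eq_zero]
  exact h

/-- Finitely many proper conditions on the value of a linear map. -/
theorem exists_generic_lin {α : Type*} [Fintype α] {S : Type*} [AddCommGroup S]
    [Module k S] [FiniteDimensional k S] {M : Type*} [AddCommGroup M] [Module k M]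
    (L : S →ₗ[k] M) (B : α → Submodule k M) (hB : ∀ q, ∃ f, L f ∉ B q) :
    ∃ f : S, ∀ q, L f ∉ B q := by
  obtain ⟨f, hf⟩ := exists_generic_notMem
    ((MultilinearMap.ofSubsingleton k S M (0 : Fin 1)) L) B (fun q => by
      obtain ⟨f, hf⟩ := hB q
      exact ⟨fun _ => f, hf⟩)
  exact ⟨f 0, hf⟩

/-- Finitely many proper subspaces do not cover. -/
theorem exists_generic_mem {α : Type*} [Fintype α] {M : Type*} [AddCommGroup M] [Module k M]
    (S : Submodule k M) [FiniteDimensional k S] (B : α → Submodule k M)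
    (hB : ∀ q, ¬ S ≤ B q) : ∃ f ∈ S, ∀ q, f ∉ B q := by
  obtain ⟨f, hf⟩ := exists_generic_lin S.subtype B (fun q => by
    by_contra h
    push Not at h
    exact hB q fun f hf => h ⟨f, hf⟩)
  exact ⟨f, f.2, hf⟩

end generic

section genericW

variable {k K : Type*} [Field k] [Field K] [Algebra k K] {n : ℕ}

/-- `W` on a subspace. -/
def WrS (D : Fin n → Derivation k K K) (S : Submodule k K) :
    MultilinearMap k (fun _ : Fin (n + 1) => S) K :=
  (WrM D).compLinearMap fun _ => S.subtype

theorem WrS_apply (D : Fin n → Derivation k K K) (S : Submodule k K) (f : Fin (n + 1) → S) :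
    WrS D S f = Wr D fun j => (f j : K) := rfl

/-- Generic elements of `S`: `W(f) ≠ 0` and `W(f)` is outside of the given subspaces. -/
theorem exists_generic_Wr [Infinite k] (D : Fin n → Derivation k K K) (S : Submodule k K)
    [FiniteDimensional k S] (h0 : ∃ f : Fin (n + 1) → K, (∀ j, f j ∈ S) ∧ Wr D f ≠ 0)
    {α : Type*} [Fintype α] (B : α → Submodule k K)
    (hB : ∀ q, ∃ f : Fin (n + 1) → K, (∀ j, f j ∈ S) ∧ Wr D f ∉ B q) :
    ∃ f : Fin (n + 1) → K, (∀ j, f j ∈ S) ∧ Wr D f ≠ 0 ∧ ∀ q, Wr D f ∉ B q := by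
  obtain ⟨f, hf⟩ := exists_generic_notMem (α := Option α) (WrS D S)
    (fun q => q.elim ⊥ B) (fun q => by
      cases q with
      | none =>
        obtain ⟨f, hf, hW⟩ := h0
        exact ⟨fun j => ⟨f j, hf j⟩, fun h => hW h⟩
      | some q =>
        obtain ⟨f, hf, hW⟩ := hB q
        exact ⟨fun j => ⟨f j, hf j⟩, hW⟩)
  exact ⟨fun j => f j, fun j => (f j).2, fun h => hf none h, fun q => hf (some q)⟩

end genericW

end Pool.Agent.TGh33
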