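import Pool.Agent.Lib.TG_h33.Wr2

/-!
# TANK G, block G1: the derivations dual to the quotients `f_j / f_0`
-/

set_option autoImplicit false

open Finset Submodule Module

namespace Pool.Agent.TGh33

variable {k K : Type*} [Field k] [Field K] [Algebra k K] {n : ℕ}

/-- The Jacobian matrix of `u`: the entry at `(j, l)` is `D_l u_j`. -/
def jm (D : Fin n → Derivation k K K) (u : Fin n → K) : Matrix (Fin n) (Fin n) K :=
  Matrix.of fun j l => D l (u j)

theorem Wr_eq_jm (D : Fin n → Derivation k K K) (f : Fin (n + 1) → K) (h0 : f 0 ≠ 0) :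
    Wr D f = f 0 ^ (n + 1) * (jm D fun j => f j.succ / f 0).det := Wr_eq D f h0

/-- The derivations dual to `u` (if the Jacobian is not zero). -/
noncomputable def dualD (D : Fin n → Derivation k K K) (u : Fin n → K) (i : Fin n) :
    Derivation k K K :=
  comb D fun l => (jm D u)⁻¹ l i

theorem dualD_apply (D : Fin n → Derivation k K K) (u : Fin n → K) (i : Fin n) (x : K) :
    dualD D u i x = ∑ l, (jm D u)⁻¹ l i * D l x := comb_apply _ _ _

theorem dualD_u (D : Fin n → Derivation k K K) (u : Fin n → K) (h : (jm D u).det ≠ 0)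
    (i j : Fin n) : dualD D u i (u j) = if i = j then 1 else 0 := by
  have h1 := congrFun (congrFun (Matrix.mul_nonsing_inv (jm D u) (isUnit_iff_ne_zero.2 h)) j) i
  rw [Matrix.mul_apply, Matrix.one_apply] at h1
  rw [dualD_apply]
  have h2 : ∑ l, (jm D u)⁻¹ l i * D l (u j) = ∑ l, jm D u j l * (jm D u)⁻¹ l i :=
    Finset.sum_congr rfl fun l _ => mul_comm _ _
  rw [h2, h1]
  by_cases h3 : i = j
  · rw [if_pos h3, if_pos h3.symm]
  · rw [if_neg h3, if_neg (Ne.symm h3)]

/-- `D_l = ∑ (D_l u_j) δ_j`. -/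
theorem D_eq_dualD (D : Fin n → Derivation k K K) (u : Fin n → K) (h : (jm D u).det ≠ 0)
    (l : Fin n) (x : K) : D l x = ∑ j, D l (u j) * dualD D u j x := by
  have h0 := Matrix.nonsing_inv_mul (jm D u) (isUnit_iff_ne_zero.2 h)
  have h1 : ∀ a, ∑ j, (jm D u)⁻¹ a j * jm D u j l = if a = l then 1 else 0 := fun a => by
    have h2 := congrFun (congrFun h0 a) l
    rwa [Matrix.mul_apply, Matrix.one_apply] at h2
  have h3 : ∑ j, D l (u j) * dualD D u j x =
      ∑ a, (∑ j, (jm D u)⁻¹ a j * jm D u j l) * D a x := by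
    simp only [dualD_apply, Finset.mul_sum, Finset.sum_mul]
    rw [Finset.sum_comm]
    refine Finset.sum_congr rfl fun a _ => Finset.sum_congr rfl fun j _ => ?_
    simp only [jm, Matrix.of_apply]
    ring
  rw [h3, Finset.sum_eq_single l]
  · rw [h1, if_pos rfl, one_mul]
  · intro a _ ha
    rw [h1, if_neg ha, zero_mul]
  · intro h; exact absurd (Finset.mem_univ _) h

/-- The family `dualD D u` is a dual family for `u`. -/
theorem DB.dualD {D : Fin n → Derivation k K K} {z : Fin n → K} (hD : DB D z) (u : Fin n → K)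
    (h : (jm D u).det ≠ 0) : DB (dualD D u) u := by
  refine ⟨fun i j => dualD_u D u h i j, fun δ x => ?_⟩
  have h1 : ∀ y, δ y = ∑ l, δ (z l) * D l y := fun y => hD.span δ y
  rw [h1 x]
  have h2 : ∀ l, D l x = ∑ j, D l (u j) * TGh33.dualD D u j x := fun l => D_eq_dualD D u h l x
  simp only [h2, Finset.mul_sum]
  rw [Finset.sum_comm]
  refine Finset.sum_congr rfl fun j _ => ?_
  rw [h1 (u j), Finset.sum_mul]
  exact Finset.sum_congr rfl fun l _ => by ring

/-- Matrices over a subring. -/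
theorem det_mem (O : Subring K) {m : ℕ} (M : Matrix (Fin m) (Fin m) K) (hM : ∀ i j, M i j ∈ O) :
    M.det ∈ O := by
  rw [Matrix.det_apply]
  refine O.sum_mem fun σ _ => ?_
  rw [Units.smul_def]
  exact O.zsmul_mem (O.prod_mem fun i _ => hM _ _) _

theorem adjugate_mem (O : Subring K) {m : ℕ} (M : Matrix (Fin m) (Fin m) K)
    (hM : ∀ i j, M i j ∈ O) (i j : Fin m) : M.adjugate i j ∈ O := by
  rw [Matrix.adjugate_apply]
  refine det_mem O _ fun a b => ?_
  rw [Matrix.updateRow_apply]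
  by_cases h : a = j
  · rw [if_pos h, Pi.single_apply]
    by_cases h2 : b = i
    · rw [if_pos h2]; exact O.one_mem
    · rw [if_neg h2]; exact O.zero_mem
  · rw [if_neg h]; exact hM _ _

/-- `W(f) / f_0 ^ (n + 1)` belongs to every ring stable under the `D_i` which contains the
quotients. -/
theorem Wr_div_mem (D : Fin n → Derivation k K K) (O : Subring K)
    (hD : ∀ i, ∀ x ∈ O, D i x ∈ O) (f : Fin (n + 1) → K) (h0 : f 0 ≠ 0)
    (hf : ∀ j : Fin n, f j.succ / f 0 ∈ O) : Wr D f / f 0 ^ (n + 1) ∈ O := by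
  rw [Wr_eq_jm D f h0, mul_div_cancel_left₀ _ (pow_ne_zero _ h0)]
  exact det_mem O _ fun i j => hD j _ (hf i)

theorem jm_det_eq (D : Fin n → Derivation k K K) (f : Fin (n + 1) → K) (h0 : f 0 ≠ 0) :
    (jm D fun j => f j.succ / f 0).det = Wr D f / f 0 ^ (n + 1) := by
  rw [Wr_eq_jm D f h0, mul_div_cancel_left₀ _ (pow_ne_zero _ h0)]

/-- The dual derivations preserve a ring stable under the `D_i` in which the Jacobian is a
unit. -/
theorem dualD_mem (D : Fin n → Derivation k K K) (O : Subring K)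
    (hD : ∀ i, ∀ x ∈ O, D i x ∈ O) (u : Fin n → K) (hu : ∀ j, u j ∈ O)
    (hinv : ((jm D u).det)⁻¹ ∈ O) (i : Fin n) {x : K} (hx : x ∈ O) : dualD D u i x ∈ O := by
  rw [dualD_apply]
  refine O.sum_mem fun l _ => O.mul_mem ?_ (hD l x hx)
  rw [Matrix.inv_def, Matrix.smul_apply, Ring.inverse_eq_inv', smul_eq_mul]
  exact O.mul_mem hinv (adjugate_mem O _ (fun a b => hD b _ (hu a)) l i)

/-- In general `det * δ_i` preserves the ring. -/
theorem det_mul_dualD_mem (D : Fin n → Derivation k K K) (O : Subring K)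
    (hD : ∀ i, ∀ x ∈ O, D i x ∈ O) (u : Fin n → K) (hu : ∀ j, u j ∈ O)
    (h : (jm D u).det ≠ 0) (i : Fin n) {x : K} (hx : x ∈ O) :
    (jm D u).det * dualD D u i x ∈ O := by
  rw [dualD_apply, Finset.mul_sum]
  refine O.sum_mem fun l _ => ?_
  rw [Matrix.inv_def, Matrix.smul_apply, Ring.inverse_eq_inv', smul_eq_mul]
  have h1 : (jm D u).det * (((jm D u).det)⁻¹ * (jm D u).adjugate l i * D l x) =
      (jm D u).adjugate l i * D l x := by
    rw [← mul_assoc, ← mul_assoc, mul_inv_cancel₀ h, one_mul]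
  rw [h1]
  exact O.mul_mem (adjugate_mem O _ (fun a b => hD b _ (hu a)) l i) (hD l x hx)

end Pool.Agent.TGh33
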