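import Pool.Agent.Lib.TG_h33.BC3

/-!
# TANK G, row BC12: `rho S (w, a) = b * rho S (w, u₀')`

`R` is the chart, `S` the local ring of a point of the normalisation, `φ : R → S`; `a` in `R` with
`a - α (u') ∈ m ^ j`, `α` a form of degree `b < j` with `X₀ ^ b` in it, `w = (u_l')`, `l ≠ i₀`.
-/

set_option autoImplicit false

namespace Pool.Agent.TGh33

open MvPolynomial

section

variable {k R S Γ : Type*} [Field k] [CommRing R] [Algebra k R] [CommRing S]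
  [LinearOrderedCommGroupWithZero Γ] {ι : Type*} [Fintype ι]

theorem aeval_mem_of_hom {m : Ideal R} {u : ι → R} (hum : ∀ l, u l ∈ m) {α : MvPolynomial ι k}
    {b : ℕ} (hb : 0 < b) (hhom : α.IsHomogeneous b) : aeval u α ∈ m := by
  classical
  rw [aeval_def, eval₂_eq']
  refine Ideal.sum_mem _ fun s hs => Ideal.mul_mem_left _ _ ?_
  have h1 := hhom (mem_support_iff.1 hs)
  have h2 : s ≠ 0 := by
    rintro rfl
    rw [map_zero] at h1
    omega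
  obtain ⟨i, hi⟩ := Finsupp.ne_iff.1 h2
  rw [Finsupp.coe_zero, Pi.zero_apply] at hi
  have h3 : ∏ l, u l ^ s l = u i ^ s i * ∏ l ∈ Finset.univ.erase i, u l ^ s l :=
    (Finset.mul_prod_erase _ _ (Finset.mem_univ i)).symm
  rw [h3]
  exact Ideal.mul_mem_right _ _ (Ideal.pow_mem_of_mem _ (hum i) _ (Nat.pos_of_ne_zero hi))

theorem lin_mem {m : Ideal R} {u : ι → R} (hum : ∀ l, u l ∈ m) (A : Matrix ι ι k) (i : ι) :
    ∑ j, algebraMap k R (A i j) * u j ∈ m :=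
  Ideal.sum_mem _ fun j _ => m.mul_mem_left _ (hum j)

/-- The value of `a` at every place over the line. -/
theorem val_eq_pow [DecidableEq ι] (i₀ : ι) (φ : R →+* S) {m : Ideal R} {u : ι → R}
    (hum : ∀ l, u l ∈ m) (A : Matrix ι ι k) (hA : A.det ≠ 0)
    {α : MvPolynomial ι k} {a : R} {b j : ℕ} (hbj : b < j) (hhom : α.IsHomogeneous b)
    (hcoef : coeff (Finsupp.single i₀ b) α ≠ 0)
    (ha : a - aeval (fun i => ∑ j, algebraMap k R (A i j) * u j) α ∈ m ^ j)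
    (v : Valuation S Γ) (hv1 : ∀ x, v x ≤ 1) (hvm : ∀ y ∈ m, v (φ y) < 1)
    (hmax : ∀ y ∈ m, v (φ y) = 0 ∨ ∃ l, v (φ y) ≤ v (φ (u l)))
    (hw : ∀ l, l ≠ i₀ → v (φ (∑ j, algebraMap k R (A l j) * u j)) = 0)
    (h0 : v (φ (∑ j, algebraMap k R (A i₀ j) * u j)) ≠ 0) :
    v (φ a) = v (φ (∑ j, algebraMap k R (A i₀ j) * u j)) ^ b := by
  have h1 := le_of_gl i₀ φ v (fun x => hv1 _) (m := m) (u := u)
    (u' := fun i => ∑ j, algebraMap k R (A i j) * u j) A⁻¹ (eq_inv A hA u) hw hmax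
  refine place_eq i₀ φ v (fun x => hv1 _) (m := m)
    (u := fun i => ∑ j, algebraMap k R (A i j) * u j) h0 (hvm _ (lin_mem hum A i₀)) h1 hw hbj
    ?_ hcoef ha
  intro s hs
  have h1 := hhom hs
  rw [Finsupp.degree_eq_weight_one]
  exact h1.ge

/-- ROW BC12 over helper88's form of F2'.  `pt g` is `IsPt S (w, g)` and `rh g` is
`rho S (w, g)`. -/
theorem bc12 [DecidableEq ι] [IsLocalRing S] (i₀ : ι) (φ : R →+* S) {m : Ideal R}
    (hmS : ∀ y ∈ m, φ y ∈ IsLocalRing.maximalIdeal S) {u : ι → R}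
    (hum : ∀ l, u l ∈ m) (A : Matrix ι ι k) (hA : A.det ≠ 0)
    {α : MvPolynomial ι k} {a : R} {b j : ℕ} (hb : 0 < b) (hbj : b < j)
    (hhom : α.IsHomogeneous b) (hcoef : coeff (Finsupp.single i₀ b) α ≠ 0)
    (ha : a - aeval (fun i => ∑ j, algebraMap k R (A i j) * u j) α ∈ m ^ j)
    {ord : Γ → ℕ} (hord : ∀ x : Γ, x ≠ 0 → x ≤ 1 → ∀ b : ℕ, ord (x ^ b) = b * ord x)
    {pt : S → Prop} {rh : S → ℕ} {J : Type*} [Fintype J] (mu : J → ℕ) (v : J → Valuation S Γ)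
    (hv1 : ∀ q x, v q x ≤ 1) (hvm : ∀ q x, v q x < 1 ↔ x ∈ IsLocalRing.maximalIdeal S)
    (hF2 : ∀ g ∈ IsLocalRing.maximalIdeal S, (pt g ↔ ∀ q, v q g ≠ 0) ∧
      (pt g → rh g = ∑ q, mu q * ord (v q g)))
    (hmax : ∀ q, ∀ y ∈ m, v q (φ y) = 0 ∨ ∃ l, v q (φ y) ≤ v q (φ (u l)))
    (hw : ∀ q, ∀ l, l ≠ i₀ → v q (φ (∑ j, algebraMap k R (A l j) * u j)) = 0)
    (hpt : pt (φ (∑ j, algebraMap k R (A i₀ j) * u j))) :
    φ a ∈ IsLocalRing.maximalIdeal S ∧ pt (φ a) ∧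
      rh (φ a) = b * rh (φ (∑ j, algebraMap k R (A i₀ j) * u j)) := by
  have hum' := lin_mem hum A
  have ham : a ∈ m := by
    have h1 : a = (a - aeval (fun i => ∑ j, algebraMap k R (A i j) * u j) α) +
        aeval (fun i => ∑ j, algebraMap k R (A i j) * u j) α := by ring
    rw [h1]
    exact Ideal.add_mem _ (Ideal.pow_le_self (by omega) ha) (aeval_mem_of_hom hum' hb hhom)
  have h0 := ((hF2 _ (hmS _ (hum' i₀))).1.1 hpt)
  have hval : ∀ q, v q (φ a) = v q (φ (∑ j, algebraMap k R (A i₀ j) * u j)) ^ b := fun q =>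
    val_eq_pow i₀ φ hum A hA hbj hhom hcoef ha (v q) (hv1 q)
      (fun y hy => (hvm q _).2 (hmS y hy)) (hmax q) (hw q) (h0 q)
  have hpa : pt (φ a) := (hF2 _ (hmS _ ham)).1.2 fun q => by
    rw [hval q]; exact pow_ne_zero _ (h0 q)
  refine ⟨hmS _ ham, hpa, ?_⟩
  rw [(hF2 _ (hmS _ ham)).2 hpa, (hF2 _ (hmS _ (hum' i₀))).2 hpt, Finset.mul_sum]
  refine Finset.sum_congr rfl fun q _ => ?_
  rw [hval q, hord _ (h0 q) (hv1 q _)]
  ring

end

end Pool.Agent.TGh33
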