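import Pool.Agent.Lib.TGJ.Iface
import Pool.Agent.Lib.TG_h45.RedX2
import Pool.Agent.Lib.TG_h33.BC12

/-!
# TANK G, row BC12 in the language of `TGJ/Iface`
-/

set_option autoImplicit false

namespace Pool.Agent.TGh33

open MvPolynomial
open Pool.Agent.TGJ
open scoped WithZero

universe u

theorem ordZ_pow {x : ℤᵐ⁰} (hx : x ≠ 0) (hx1 : x ≤ 1) (b : ℕ) :
    ordZ (x ^ b) = b * ordZ x := by
  have h1 : WithZero.log x ≤ 0 := by
    have h2 := (WithZero.log_le_log hx one_ne_zero).2 hx1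
    rwa [WithZero.log_one] at h2
  rw [ordZ, ordZ, WithZero.log_pow, nsmul_eq_mul]
  have h3 : -((b : ℤ) * WithZero.log x) = (b : ℤ) * (-WithZero.log x) := by ring
  rw [h3, Int.toNat_mul (by positivity) (by omega), Int.toNat_natCast]

section

variable {k : Type u} [Field k] {S L : Type u} [CommRing S] [Algebra k S] [Field L] [Algebra k L]
  {R : Type*} [CommRing R] [Algebra k R]

/-- ROW BC12.  `R` is the chart of the point `m`, `u` generates a reduction of `m`, `u' = A u`,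
`a - α (u') ∈ m ^ j`, `α` a form of degree `b < j` with `X_{i₀} ^ b`; `w` contains all `u'_l`,
`l ≠ i₀`. -/
theorem bc12_cv {ψ : S →ₐ[k] L} {res : S →ₐ[k] k} (φ : R →ₐ[k] S) {m : Ideal R} (hfg : m.FG)
    (hm : ∀ y ∈ m, res (φ y) = 0) {n : ℕ} {u : Fin n → R} (hum : ∀ l, u l ∈ m) {r : ℕ}
    (hred : m ^ (r + 1) ≤ Ideal.span (Set.range u) * m ^ r ⊔ m ^ (r + 2))
    (A : Matrix (Fin n) (Fin n) k) (hA : A.det ≠ 0) {i₀ : Fin n} {α : MvPolynomial (Fin n) k}
    {a : R} {b j : ℕ} (hb : 0 < b) (hbj : b < j) (hhom : α.IsHomogeneous b)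
    (hcoef : coeff (Finsupp.single i₀ b) α ≠ 0)
    (ha : a - aeval (fun i => ∑ j, algebraMap k R (A i j) * u j) α ∈ m ^ j)
    {N : ℕ} {w : Fin N → S} (hcv : HasCv ψ res w)
    (hw : ∀ l, l ≠ i₀ → ∃ i, w i = φ (∑ j, algebraMap k R (A l j) * u j))
    (hpt : Proper ψ res (Fin.cons (φ (∑ j, algebraMap k R (A i₀ j) * u j)) w :
      Fin (N + 1) → S)) :
    res (φ a) = 0 ∧ Proper ψ res (Fin.cons (φ a) w : Fin (N + 1) → S) ∧
      Rho ψ res (Fin.cons (φ a) w : Fin (N + 1) → S) =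
        b * Rho ψ res (Fin.cons (φ (∑ j, algebraMap k R (A i₀ j) * u j)) w :
          Fin (N + 1) → S) := by
  obtain ⟨J, hJ, μ, v, hv, -, hpr, hrho⟩ := hcv
  have hum' := lin_mem hum A
  have ham : a ∈ m := by
    have h1 : a = (a - aeval (fun i => ∑ j, algebraMap k R (A i j) * u j) α) +
        aeval (fun i => ∑ j, algebraMap k R (A i j) * u j) α := by ring
    rw [h1]
    exact Ideal.add_mem _ (Ideal.pow_le_self (by omega) ha) (aeval_mem_of_hom hum' hb hhom)
  have hra := hm a ham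
  have hru := hm _ (hum' i₀)
  have h0 := (hpr _ hru).1 hpt
  obtain ⟨h, e, he⟩ := Submodule.fg_iff_exists_fin_generating_family.1 hfg
  have hval : ∀ q, v q (φ a) = v q (φ (∑ j, algebraMap k R (A i₀ j) * u j)) ^ b := by
    intro q
    obtain ⟨-, hcvq, -, hwq⟩ := hv q
    refine val_eq_pow i₀ (φ : R →+* S) hum A hA hbj hhom hcoef ha (v q) hcvq.le
      (fun y hy => hcvq.lt _ (hm y hy)) (fun y hy => ?_) (fun l hl => ?_) (h0 q)
    · exact TGX45.val_le_of_redI ((v q).comap (φ : R →+* S)) (fun x => hcvq.le _)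
        (fun x hx => hcvq.lt _ (hm x hx)) he hred hy
    · obtain ⟨i, hi⟩ := hw l hl
      have h1 := hwq i
      rw [hi] at h1
      exact h1
  have h1 : ∀ q, v q (φ a) ≠ 0 := fun q => by rw [hval q]; exact pow_ne_zero _ (h0 q)
  refine ⟨hra, (hpr _ hra).2 h1, ?_⟩
  rw [hrho _ hra h1, hrho _ hru h0, Finset.mul_sum]
  refine Finset.sum_congr rfl fun q _ => ?_
  rw [hval q, ordZ_pow (h0 q) ((hv q).2.1.le _)]
  ring

end

end Pool.Agent.TGh33
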