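import Pool.Agent.Lib.TGBC_h29.Rows
import Pool.Agent.Lib.TG_h33.BC12cv

/-!
# TANK G, bridge B → C: ROW LEAD
-/

set_option autoImplicit false

namespace Pool.Agent.TGh33

open MvPolynomial
open Pool.Agent.TGJ
open scoped WithZero

universe u

/-- The permutation `0 ↦ i`, `j + 1 ↦ i.succAbove j`. -/
def headPerm {n : ℕ} (i : Fin (n + 1)) : Equiv.Perm (Fin (n + 1)) :=
  (finSuccEquiv n).trans (finSuccEquiv' i).symm

theorem headPerm_zero {n : ℕ} (i : Fin (n + 1)) : headPerm i 0 = i := by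
  simp [headPerm]

theorem headPerm_succ {n : ℕ} (i : Fin (n + 1)) (j : Fin n) :
    headPerm i j.succ = i.succAbove j := by
  simp [headPerm]

theorem cons_eq_comp {S : Type*} {n : ℕ} (f : Fin (n + 1) → S) (i : Fin (n + 1)) :
    (Fin.cons (f i) (fun l => f (i.succAbove l)) : Fin (n + 1) → S) = f ∘ headPerm i := by
  funext j
  refine Fin.cases ?_ (fun j => ?_) j
  · rw [Fin.cons_zero, Function.comp_apply, headPerm_zero]
  · rw [Fin.cons_succ, Function.comp_apply, headPerm_succ]

theorem proper_comp {k : Type u} [Field k] {S L : Type u} [CommRing S] [Algebra k S] [Field L]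
    [Algebra k L] {ψ : S →ₐ[k] L} {res : S →ₐ[k] k} {m : ℕ} {f : Fin m → S}
    (σ : Equiv.Perm (Fin m)) (h : Proper ψ res f) : Proper ψ res (f ∘ σ) := by
  refine ⟨fun i => h.1 (σ i), fun Q hQ hker hf => h.2 Q hQ hker fun i => ?_⟩
  have h1 := hf (σ.symm i)
  rwa [Function.comp_apply, σ.apply_symm_apply] at h1

/-- ROW LEAD. -/
theorem rowLead {k K : Type u} [Field k] [Field K] [Algebra k K] (hF2 : F2 k K) (hP : Perm k) :
    TGBC.RowLead k K := by
  intro hk S res hS n hn R _ _ φ m hfg hm u hpr hred hum i b j hb hbj α hhom hcoef a ha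
  obtain ⟨r, hred⟩ := hred
  have hpr' := proper_comp (headPerm i) hpr
  rw [← cons_eq_comp (fun l => φ (u l)) i] at hpr'
  have hcv := (hF2 hk S res hS n).1 hn _ _ hpr'
  have hRho : Rho S.val res (fun l => φ (u l)) = Rho S.val res (Fin.cons (φ (u i))
      (fun l => φ (u (i.succAbove l))) : Fin (n + 1) → S) := by
    have h1 := hP S K S.val res (n + 1) (fun l => φ (u l)) (headPerm i)
    rw [← cons_eq_comp (fun l => φ (u l)) i] at h1
    exact h1.symm
  rw [hRho]
  obtain ⟨J, hJ, μ, v, hv, -, hpr1, hrho⟩ := hcv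
  have ham : a ∈ m := by
    have h1 : a = (a - aeval u α) + aeval u α := by ring
    rw [h1]
    exact Ideal.add_mem _ (Ideal.pow_le_self (by omega) ha) (aeval_mem_of_hom hum hb hhom)
  have hra := hm a ham
  have hru := hm _ (hum i)
  have h0 := (hpr1 _ hru).1 hpr'
  obtain ⟨h, e, he⟩ := Submodule.fg_iff_exists_fin_generating_family.1 hfg
  have hval : ∀ q, v q (φ a) = v q (φ (u i)) ^ b := by
    intro q
    obtain ⟨-, hcvq, -, hwq⟩ := hv q
    have hw0 : ∀ l, l ≠ i → v q (φ (u l)) = 0 := by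
      intro l hl
      obtain ⟨l', rfl⟩ := Fin.exists_succAbove_eq hl
      exact hwq l'
    refine place_eq i (φ : R →+* S) (v q) (fun x => hcvq.le _) (m := m) (h0 q)
      (hcvq.lt _ hru) (fun y hy => ?_) hw0 hbj ?_ hcoef ha
    · rcases TGX45.val_le_of_redI ((v q).comap (φ : R →+* S)) (fun x => hcvq.le _)
        (fun x hx => hcvq.lt _ (hm x hx)) he hred hy with h1 | ⟨l, hl⟩
      · have h2 : v q (φ y) = 0 := h1
        exact h2.le.trans zero_le
      · by_cases hli : l = i
        · rw [hli] at hl; exact hl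
        · have h2 : v q (φ y) ≤ v q (φ (u l)) := hl
          rw [hw0 l hli] at h2
          exact h2.trans zero_le
    · intro s hs
      have h1 := hhom hs
      rw [Finsupp.degree_eq_weight_one]
      exact h1.ge
  have h1 : ∀ q, v q (φ a) ≠ 0 := fun q => by rw [hval q]; exact pow_ne_zero _ (h0 q)
  refine ⟨(hpr1 _ hra).2 h1, ?_⟩
  rw [hrho _ hra h1, hrho _ hru h0, Finset.mul_sum]
  refine Finset.sum_congr rfl fun q _ => ?_
  rw [hval q, ordZ_pow (h0 q) ((hv q).2.1.le _)]
  ring

end Pool.Agent.TGh33
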