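import Mathlib

/-!
# TANK G, row BC3: the order of `a` along a place over the line `u' = (u₀', 0, .., 0)`

`φ : R → B`, `v` a valuation of `B`, trivial on `k`, `v ∘ φ < 1` on `m`.  If `v (φ y) ≤ v (φ u₀')`
for `y ∈ m`, `φ (u_l') = 0` for `l ≠ 0`, `a - α (u') ∈ m ^ j` with `α` of order `≥ b`, `b < j`, and
the coefficient of `X₀ ^ b` in `α` is not zero, then `v (φ a) = v (φ u₀') ^ b`.
-/

set_option autoImplicit false

namespace Pool.Agent.TGh33

open MvPolynomial

section Place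

variable {k R B Γ : Type*} [Field k] [CommRing R] [Algebra k R] [CommRing B]
  [LinearOrderedCommGroupWithZero Γ]

/-- The constants have value one. -/
theorem v_const (φ : R →+* B) (v : Valuation B Γ)
    (hk : ∀ c : k, v (φ (algebraMap k R c)) ≤ 1) {c : k} (hc : c ≠ 0) :
    v (φ (algebraMap k R c)) = 1 := by
  apply le_antisymm (hk c)
  have h1 : v (φ (algebraMap k R c)) * v (φ (algebraMap k R c⁻¹)) = 1 := by
    rw [← map_mul, ← map_mul, ← map_mul, mul_inv_cancel₀ hc, map_one, map_one, map_one]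
  calc (1 : Γ) = v (φ (algebraMap k R c)) * v (φ (algebraMap k R c⁻¹)) := h1.symm
    _ ≤ v (φ (algebraMap k R c)) * 1 := mul_le_mul_right (hk _) _
    _ = v (φ (algebraMap k R c)) := mul_one _

/-- Elements of `m ^ j`. -/
theorem v_pow_le (φ : R →+* B) (v : Valuation B Γ) (hR : ∀ x, v (φ x) ≤ 1) {m : Ideal R} {γ : Γ}
    (hm : ∀ y ∈ m, v (φ y) ≤ γ) (j : ℕ) {y : R} (hy : y ∈ m ^ j) : v (φ y) ≤ γ ^ j := by
  induction j generalizing y with
  | zero => rw [pow_zero]; exact hR y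
  | succ j ih =>
    rw [pow_succ] at hy
    induction hy using Submodule.mul_induction_on' with
    | mem_mul_mem a ha b hb =>
      rw [map_mul, map_mul, pow_succ]
      exact mul_le_mul' (ih ha) (hm b hb)
    | add x _ y _ hx hy =>
      rw [map_add]
      exact (v.map_add _ _).trans (max_le hx hy)

/-- ROW BC3. -/
theorem place_eq {ι : Type*} [Fintype ι] (i₀ : ι) (φ : R →+* B) (v : Valuation B Γ) (hR : ∀ x, v (φ x) ≤ 1) {m : Ideal R}
    {u : ι → R} (hu0 : v (φ (u i₀)) ≠ 0) (hu1 : v (φ (u i₀)) < 1)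
    (hm : ∀ y ∈ m, v (φ y) ≤ v (φ (u i₀))) (hul : ∀ l, l ≠ i₀ → v (φ (u l)) = 0)
    {α : MvPolynomial (ι) k} {a : R} {b j : ℕ} (hbj : b < j)
    (hord : ∀ s : ι →₀ ℕ, coeff s α ≠ 0 → b ≤ s.degree)
    (hcoef : coeff (Finsupp.single i₀ b) α ≠ 0) (ha : a - aeval u α ∈ m ^ j) :
    v (φ a) = v (φ (u i₀)) ^ b := by
  classical
  have hk : ∀ c : k, v (φ (algebraMap k R c)) ≤ 1 := fun c => hR _
  -- the value of a monomial
  have hmon : ∀ s : ι →₀ ℕ, v (φ (∏ i, u i ^ s i)) =
      if s = Finsupp.single i₀ (s i₀) then v (φ (u i₀)) ^ (s i₀) else 0 := by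
    intro s
    split_ifs with hs
    · rw [map_prod, map_prod, Finset.prod_eq_single i₀]
      · rw [map_pow, map_pow]
      · intro l _ hl
        rw [hs, Finsupp.single_apply, if_neg (Ne.symm hl), pow_zero, map_one, map_one]
      · intro h; exact absurd (Finset.mem_univ _) h
    · obtain ⟨l, hl, hsl⟩ : ∃ l, l ≠ i₀ ∧ s l ≠ 0 := by
        by_contra hcon
        push Not at hcon
        apply hs
        ext l
        by_cases h : l = i₀
        · rw [h, Finsupp.single_eq_same]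
        · rw [hcon l h, Finsupp.single_apply, if_neg (Ne.symm h)]
      rw [map_prod, map_prod]
      apply Finset.prod_eq_zero (Finset.mem_univ l)
      rw [map_pow, map_pow, hul l hl, zero_pow hsl]
  -- the value of `α (u)`
  have hαv : v (φ (aeval u α)) = v (φ (u i₀)) ^ b := by
    have h1 : aeval u α = ∑ s ∈ α.support, algebraMap k R (coeff s α) * ∏ i, u i ^ s i := by
      rw [aeval_def, eval₂_eq']
    have h2 : φ (aeval u α) = ∑ s ∈ α.support, φ (algebraMap k R (coeff s α)) *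
        φ (∏ i, u i ^ s i) := by
      rw [h1, map_sum]
      exact Finset.sum_congr rfl fun s _ => map_mul _ _ _
    have hmem : Finsupp.single i₀ b ∈ α.support := mem_support_iff.2 hcoef
    rw [h2, ← Finset.add_sum_erase _ _ hmem]
    have h3 : v (φ (algebraMap k R (coeff (Finsupp.single i₀ b) α)) *
        φ (∏ i, u i ^ (Finsupp.single i₀ b : ι →₀ ℕ) i)) =
        v (φ (u i₀)) ^ b := by
      rw [map_mul, hmon, if_pos (by rw [Finsupp.single_eq_same]), v_const φ v hk hcoef, one_mul,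
        Finsupp.single_eq_same]
    rw [← h3]
    apply v.map_add_eq_of_lt_left
    rw [h3]
    apply v.map_sum_lt
    · exact pow_ne_zero _ hu0
    intro s hs
    rw [Finset.mem_erase, mem_support_iff] at hs
    rw [map_mul, hmon]
    split_ifs with h4
    · have h5 := hord s hs.2
      have h6 : s.degree = s i₀ := by
        conv_lhs => rw [h4]
        rw [Finsupp.degree_single]
      have h7 : s i₀ ≠ b := by
        intro h
        exact hs.1 (by rw [h4, h])
      rw [v_const φ v hk hs.2, one_mul]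
      exact pow_lt_pow_right_of_lt_one₀ (zero_lt_iff.2 hu0) hu1 (by omega)
    · rw [mul_zero]
      exact zero_lt_iff.2 (pow_ne_zero _ hu0)
  have h8 : φ a = φ (aeval u α) + φ (a - aeval u α) := by
    rw [← map_add]; congr 1; ring
  rw [h8, ← hαv]
  apply v.map_add_eq_of_lt_left
  rw [hαv]
  exact (v_pow_le φ v hR hm j ha).trans_lt
    (pow_lt_pow_right_of_lt_one₀ (zero_lt_iff.2 hu0) hu1 hbj)

/-- After a linear change of the coordinates such that only `u₀'` does not vanish, `v (φ u₀')` is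
the maximum. -/
theorem le_of_gl {ι : Type*} [Fintype ι] (i₀ : ι) (φ : R →+* B) (v : Valuation B Γ) (hR : ∀ x, v (φ x) ≤ 1) {m : Ideal R}
    {u u' : ι → R} (C : Matrix (ι) (ι) k)
    (hC : ∀ l, u l = ∑ i, algebraMap k R (C l i) * u' i) (hul : ∀ l, l ≠ i₀ → v (φ (u' l)) = 0)
    (h : ∀ y ∈ m, v (φ y) = 0 ∨ ∃ l, v (φ y) ≤ v (φ (u l))) :
    ∀ y ∈ m, v (φ y) ≤ v (φ (u' i₀)) := by
  intro y hy
  rcases h y hy with h0 | ⟨l, hl⟩
  · rw [h0]; exact zero_le
  refine hl.trans ?_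
  rw [hC l, map_sum]
  apply v.map_sum_le
  intro i _
  rw [map_mul, map_mul]
  by_cases hi : i = i₀
  · rw [hi]
    exact mul_le_of_le_one_left' (hR _)
  · rw [hul i hi, mul_zero]
    exact zero_le

end Place

section Ord

/-- The valuation of an order function. -/
noncomputable def valOfOrd {F : Type*} [Field F] (O : Subring F) (ord : F → ℤ)
    (hmul : ∀ x y, x ≠ 0 → y ≠ 0 → ord (x * y) = ord x + ord y)
    (hmem : ∀ x, x ≠ 0 → (x ∈ O ↔ 0 ≤ ord x)) : Valuation F (WithZero (Multiplicative ℤ)) where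
  toFun x := open Classical in if x = 0 then 0 else WithZero.exp (-ord x)
  map_zero' := by rw [if_pos rfl]
  map_one' := by
    have h1 := hmul 1 1 one_ne_zero one_ne_zero
    rw [mul_one] at h1
    have h2 : ord 1 = 0 := by omega
    rw [if_neg one_ne_zero, h2, neg_zero, WithZero.exp_zero]
  map_mul' x y := by
    by_cases hx : x = 0
    · rw [hx, zero_mul, if_pos rfl, zero_mul]
    by_cases hy : y = 0
    · rw [hy, mul_zero, if_pos rfl, mul_zero]
    rw [if_neg (mul_ne_zero hx hy), if_neg hx, if_neg hy, ← WithZero.exp_add, hmul x y hx hy]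
    congr 1
    ring
  map_add_le_max' x y := by
    have hinv : ∀ z : F, z ≠ 0 → ord z⁻¹ = -ord z := by
      intro z hz
      have h1 := hmul 1 1 one_ne_zero one_ne_zero
      rw [mul_one] at h1
      have h2 := hmul z z⁻¹ hz (inv_ne_zero hz)
      rw [mul_inv_cancel₀ hz] at h2
      omega
    have key : ∀ x y : F, x ≠ 0 → y ≠ 0 → x + y ≠ 0 → ord x ≤ ord y → ord x ≤ ord (x + y) := by
      intro x y hx hy hxy h
      have h1 : y * x⁻¹ ∈ O := by
        rw [hmem _ (mul_ne_zero hy (inv_ne_zero hx)), hmul y x⁻¹ hy (inv_ne_zero hx), hinv x hx]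
        omega
      have h2 : (x + y) * x⁻¹ ∈ O := by
        have h3 : (x + y) * x⁻¹ = 1 + y * x⁻¹ := by
          rw [add_mul, mul_inv_cancel₀ hx]
        rw [h3]
        exact O.add_mem O.one_mem h1
      rw [hmem _ (mul_ne_zero hxy (inv_ne_zero hx)), hmul _ x⁻¹ hxy (inv_ne_zero hx),
        hinv x hx] at h2
      omega
    by_cases hx : x = 0
    · rw [hx, zero_add]; exact le_max_right _ _
    by_cases hy : y = 0
    · rw [hy, add_zero]; exact le_max_left _ _
    by_cases hxy : x + y = 0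
    · rw [if_pos hxy]; exact zero_le
    rw [if_neg hx, if_neg hy, if_neg hxy]
    rcases le_total (ord x) (ord y) with h | h
    · refine le_trans ?_ (le_max_left _ _)
      rw [WithZero.exp_le_exp]
      have := key x y hx hy hxy h
      omega
    · refine le_trans ?_ (le_max_right _ _)
      rw [WithZero.exp_le_exp]
      have := key y x hy hx (by rwa [add_comm]) h
      rw [add_comm] at this
      omega

variable {k R F : Type*} [Field k] [CommRing R] [Algebra k R] [Field F]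

theorem valOfOrd_apply {O : Subring F} {ord : F → ℤ}
    {hmul : ∀ x y, x ≠ 0 → y ≠ 0 → ord (x * y) = ord x + ord y}
    {hmem : ∀ x, x ≠ 0 → (x ∈ O ↔ 0 ≤ ord x)} {x : F} (hx : x ≠ 0) :
    valOfOrd O ord hmul hmem x = WithZero.exp (-ord x) := by
  classical
  exact if_neg hx

/-- ROW BC3 with the order function of a discrete valuation ring `O` of the field `F`;
`u` are the first coordinates, `u = C u'`, `C` any matrix (the inverse of the change). -/
theorem place_ord {ι : Type*} [Fintype ι] (i₀ : ι) (O : Subring F) (ord : F → ℤ)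
    (hmul : ∀ x y, x ≠ 0 → y ≠ 0 → ord (x * y) = ord x + ord y)
    (hmem : ∀ x, x ≠ 0 → (x ∈ O ↔ 0 ≤ ord x)) (φ : R →+* F) (hφ : ∀ x, φ x ∈ O) {m : Ideal R}
    (hm : ∀ y ∈ m, φ y = 0 ∨ 0 < ord (φ y)) {u u' : ι → R}
    (C : Matrix (ι) (ι) k)
    (hC : ∀ l, u l = ∑ i, algebraMap k R (C l i) * u' i)
    (h : ∀ y ∈ m, φ y ≠ 0 → ∃ l, φ (u l) ≠ 0 ∧ ord (φ (u l)) ≤ ord (φ y))
    (hum : u' i₀ ∈ m) (hul : ∀ l, l ≠ i₀ → φ (u' l) = 0) (hu0 : φ (u' i₀) ≠ 0)
    {α : MvPolynomial (ι) k} {a : R} {b j : ℕ} (hbj : b < j)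
    (hord : ∀ s : ι →₀ ℕ, coeff s α ≠ 0 → b ≤ s.degree)
    (hcoef : coeff (Finsupp.single i₀ b) α ≠ 0) (ha : a - aeval u' α ∈ m ^ j) :
    φ a ≠ 0 ∧ ord (φ a) = b * ord (φ (u' i₀)) := by
  obtain ⟨v, hv⟩ : ∃ v : Valuation F (WithZero (Multiplicative ℤ)),
      ∀ x, x ≠ 0 → v x = WithZero.exp (-ord x) :=
    ⟨valOfOrd O ord hmul hmem, fun x hx => valOfOrd_apply hx⟩
  have hR : ∀ x, v (φ x) ≤ 1 := by
    intro x
    by_cases hx : φ x = 0
    · rw [hx, map_zero]; exact zero_le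
    rw [hv _ hx, ← WithZero.exp_zero, WithZero.exp_le_exp]
    have := (hmem _ hx).1 (hφ x)
    omega
  have hu0' : v (φ (u' i₀)) ≠ 0 := (Valuation.ne_zero_iff v).2 hu0
  have hu1 : v (φ (u' i₀)) < 1 := by
    rw [hv _ hu0, ← WithZero.exp_zero, WithZero.exp_lt_exp]
    have := (hm _ hum).resolve_left hu0
    omega
  have hul' : ∀ l, l ≠ i₀ → v (φ (u' l)) = 0 := fun l hl => by rw [hul l hl, map_zero]
  have hmax := le_of_gl i₀ φ v hR C hC hul' (m := m) (fun y hy => by
    by_cases hy0 : φ y = 0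
    · left; rw [hy0, map_zero]
    right
    obtain ⟨l, hl0, hl⟩ := h y hy hy0
    refine ⟨l, ?_⟩
    rw [hv _ hy0, hv _ hl0, WithZero.exp_le_exp]
    omega)
  have key := place_eq i₀ φ v hR hu0' hu1 hmax hul' hbj hord hcoef ha
  have ha0 : φ a ≠ 0 := by
    intro h0
    rw [h0, map_zero] at key
    exact pow_ne_zero b hu0' key.symm
  refine ⟨ha0, ?_⟩
  rw [hv _ ha0, hv _ hu0, ← WithZero.exp_nsmul] at key
  have h1 := WithZero.exp_injective key
  rw [nsmul_eq_mul] at h1
  linarith [h1, mul_neg (b : ℤ) (ord (φ (u' i₀)))]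

/-- `u = A⁻¹ u'`. -/
theorem eq_inv {ι : Type*} [Fintype ι] [DecidableEq ι] (A : Matrix ι ι k) (hA : A.det ≠ 0)
    (u : ι → R) (l : ι) : u l = ∑ i, algebraMap k R (A⁻¹ l i) *
      ∑ j, algebraMap k R (A i j) * u j := by
  have h1 : A⁻¹ * A = 1 := Matrix.nonsing_inv_mul A (isUnit_iff_ne_zero.2 hA)
  have h2 : ∀ j, ∑ i, A⁻¹ l i * A i j = if l = j then 1 else 0 := by
    intro j
    have h3 := congr_fun (congr_fun h1 l) j
    rw [Matrix.mul_apply, Matrix.one_apply] at h3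
    exact h3
  simp only [Finset.mul_sum]
  rw [Finset.sum_comm]
  have h4 : ∀ j, ∑ i, algebraMap k R (A⁻¹ l i) * (algebraMap k R (A i j) * u j) =
      if l = j then u j else 0 := by
    intro j
    have h5 : ∑ i, algebraMap k R (A⁻¹ l i) * (algebraMap k R (A i j) * u j) =
        algebraMap k R (∑ i, A⁻¹ l i * A i j) * u j := by
      rw [map_sum, Finset.sum_mul]
      exact Finset.sum_congr rfl fun i _ => by rw [map_mul, mul_assoc]
    rw [h5, h2]
    split_ifs
    · rw [map_one, one_mul]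
    · rw [map_zero, zero_mul]
  simp only [h4]
  rw [Finset.sum_ite_eq, if_pos (Finset.mem_univ l)]

/-- ROW BC3, with the output of `TGBC74.exists_alpha_gl`: `u' = A u`, `det A ≠ 0`. -/
theorem place_ord_gl {ι : Type*} [Fintype ι] [DecidableEq ι] (i₀ : ι) (O : Subring F) (ord : F → ℤ)
    (hmul : ∀ x y, x ≠ 0 → y ≠ 0 → ord (x * y) = ord x + ord y)
    (hmem : ∀ x, x ≠ 0 → (x ∈ O ↔ 0 ≤ ord x)) (φ : R →+* F) (hφ : ∀ x, φ x ∈ O) {m : Ideal R}
    (hm : ∀ y ∈ m, φ y = 0 ∨ 0 < ord (φ y)) {u : ι → R} (hum : ∀ l, u l ∈ m)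
    (A : Matrix ι ι k) (hA : A.det ≠ 0)
    (h : ∀ y ∈ m, φ y ≠ 0 → ∃ l, φ (u l) ≠ 0 ∧ ord (φ (u l)) ≤ ord (φ y))
    (hul : ∀ l, l ≠ i₀ → φ (∑ j, algebraMap k R (A l j) * u j) = 0)
    (hu0 : φ (∑ j, algebraMap k R (A i₀ j) * u j) ≠ 0)
    {α : MvPolynomial ι k} {a : R} {b j : ℕ} (hbj : b < j) (hhom : α.IsHomogeneous b)
    (hcoef : coeff (Finsupp.single i₀ b) α ≠ 0)
    (ha : a - aeval (fun i => ∑ j, algebraMap k R (A i j) * u j) α ∈ m ^ j) :
    φ a ≠ 0 ∧ ord (φ a) = b * ord (φ (∑ j, algebraMap k R (A i₀ j) * u j)) := by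
  refine place_ord i₀ O ord hmul hmem φ hφ hm (u := u)
    (u' := fun i => ∑ j, algebraMap k R (A i j) * u j) A⁻¹ (eq_inv A hA u) h ?_ hul hu0 hbj ?_
    hcoef ha
  · exact Ideal.sum_mem _ fun j _ => m.mul_mem_left _ (hum j)
  · intro s hs
    have h1 := hhom hs
    rw [Finsupp.degree_eq_weight_one]
    exact h1.ge

end Ord

end Pool.Agent.TGh33
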