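import Pool.Agent.Lib.ALB.GNN

/-!
# Effective Noether normalisation by linear forms (Eakin-Sathaye)

`k` infinite, `A` a commutative `k`-algebra, `W` a finite-dimensional subspace, `G` a subspace with
`dim (W ^ j mod G) < binom (j + r, r)`.  For every `u` in `W ^ r` for which the dimension of
`span (u) * W ^ (j - 1) mod G` is maximal, `w ^ j` belongs to `span (u) * W ^ (j - 1) + G` for all
`w` in `W`.
-/

set_option autoImplicit false

open Submodule Module MvPolynomial

namespace Pool.Agent.TGh33

open Pool.Agent.ALB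

section Form

variable {k A : Type*} [Field k] [CommRing A] [Algebra k A]

/-- A form of degree `j` in the `u i` which lies in `G`. -/
theorem exists_form_deg (W G : Submodule k A) [FiniteDimensional k W] (j r : ℕ)
    (h : finrank k ((W ^ j).map G.mkQ) < (j + r).choose r) (u : Fin (r + 1) → A)
    (hu : ∀ i, u i ∈ W) :
    ∃ F : MvPolynomial (Fin (r + 1)) k, F ≠ 0 ∧ F.IsHomogeneous j ∧ aeval u F ∈ G := by
  classical
  by_contra hcon
  push Not at hcon
  have hfd : FiniteDimensional k ((W ^ j).map G.mkQ) := by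
    have : (W ^ j).FG := Submodule.FG.pow (Module.Finite.iff_fg.mp inferInstance) j
    exact Module.Finite.iff_fg.mpr (this.map _)
  obtain ⟨e, he⟩ : ∃ e : Sym (Fin (r + 1)) j → (Fin (r + 1) →₀ ℕ),
      ∀ s, e s = Multiset.toFinsupp (s : Multiset (Fin (r + 1))) := ⟨_, fun s => rfl⟩
  have heinj : Function.Injective e := by
    intro s t hst
    rw [he, he] at hst
    exact Subtype.ext (Multiset.toFinsupp.injective hst)
  have hdeg : ∀ s, ∑ i, e s i = j := by
    intro s
    rw [he]
    have h1 : ∑ i, (Multiset.toFinsupp (s : Multiset (Fin (r + 1)))) i =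
        Multiset.card (s : Multiset (Fin (r + 1))) := by
      simp only [Multiset.toFinsupp_apply]
      exact Multiset.sum_count_eq_card fun i _ => Finset.mem_univ i
    rw [h1, Sym.card_coe]
  have hmem : ∀ s, ∏ i, u i ^ e s i ∈ W ^ j := by
    intro s
    have h1 : ∀ i, Rd (⊥ : Submodule k A) W 1 (u i) (u i) := fun i =>
      ⟨by simpa using hu i, by simpa using hu i, by simp⟩
    have h2 := Rd_prod u u h1 (fun i => e s i) Finset.univ
    rw [hdeg] at h2
    exact h2.1
  obtain ⟨f, hf⟩ : ∃ f : Sym (Fin (r + 1)) j → ((W ^ j).map G.mkQ),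
      ∀ s, (f s : A ⧸ G) = G.mkQ (∏ i, u i ^ e s i) :=
    ⟨fun s => ⟨_, Submodule.mem_map_of_mem (hmem s)⟩, fun s => rfl⟩
  have hli : LinearIndependent k f := by
    rw [Fintype.linearIndependent_iff]
    intro c hc
    by_contra hne
    push Not at hne
    obtain ⟨s₀, hs₀⟩ := hne
    obtain ⟨Q, hQ⟩ : ∃ Q : MvPolynomial (Fin (r + 1)) k, Q = ∑ s, monomial (e s) (c s) :=
      ⟨_, rfl⟩
    refine hcon Q ?_ ?_ ?_
    · intro hQ0
      have h1 : coeff (e s₀) Q = c s₀ := by
        rw [hQ]
        simp only [coeff_sum, coeff_monomial]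
        rw [Finset.sum_eq_single s₀]
        · simp
        · intro β _ hβ
          rw [if_neg]
          exact fun h => hβ (heinj h)
        · simp
      rw [hQ0] at h1
      exact hs₀ (by simpa using h1.symm)
    · rw [hQ]
      refine IsHomogeneous.sum _ _ _ fun s _ => ?_
      refine isHomogeneous_monomial _ ?_
      rw [Finsupp.degree_eq_sum]
      exact hdeg s
    · have h1 : aeval u Q = ∑ s, c s • ∏ i, u i ^ e s i := by
        rw [hQ]
        simp only [map_sum, aeval_monomial]
        refine Finset.sum_congr rfl fun s _ => ?_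
        rw [Algebra.smul_def, Finsupp.prod_fintype]
        simp
      rw [h1, ← Submodule.Quotient.mk_eq_zero, ← Submodule.mkQ_apply, map_sum]
      have h2 := congrArg Subtype.val hc
      rw [Submodule.coe_sum] at h2
      simp only [Submodule.coe_smul, hf] at h2
      simp only [map_smul]
      exact h2
  have h3 := hli.fintype_card_le_finrank
  rw [Sym.card_sym_eq_choose, Fintype.card_fin] at h3
  have h4 : r + 1 + j - 1 = j + r := by omega
  rw [h4, Nat.choose_symm_add] at h3
  omega

end Form

section Rank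

variable {k Q : Type*} [Field k] [AddCommGroup Q] [Module k Q]

/-- Independence is an open condition on a line. -/
theorem indep_line {ι : Type*} [Finite ι] (x y : ι → Q) (hx : LinearIndependent k x) :
    ∃ Δ : Polynomial k, Δ ≠ 0 ∧ ∀ s, Δ.eval s ≠ 0 → LinearIndependent k fun a => x a + s • y a := by
  classical
  have := Fintype.ofFinite ι
  obtain ⟨φ, hφ⟩ := LinearMap.exists_leftInverse_of_injective
    (Fintype.linearCombination k x) (by
      rw [LinearMap.ker_eq_bot']
      intro c hc
      rw [Fintype.linearCombination_apply] at hc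
      funext a
      exact Fintype.linearIndependent_iff.1 hx c hc a)
  have hφx : ∀ a, φ (x a) = Pi.single a 1 := by
    intro a
    have h1 := LinearMap.congr_fun hφ (Pi.single a 1)
    rw [LinearMap.comp_apply, Fintype.linearCombination_apply_single, one_smul] at h1
    exact h1
  obtain ⟨Δ, hΔ⟩ : ∃ Δ : Polynomial k, Δ = (Matrix.of fun a b : ι =>
      Polynomial.C ((Pi.single a 1 : ι → k) b) + Polynomial.X * Polynomial.C (φ (y a) b)).det :=
    ⟨_, rfl⟩
  have hev : ∀ s, Δ.eval s = (Matrix.of fun a b : ι => φ (x a + s • y a) b).det := by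
    intro s
    rw [hΔ, ← Polynomial.coe_evalRingHom, RingHom.map_det]
    congr 1
    ext a b
    rw [RingHom.mapMatrix_apply, Matrix.map_apply, Matrix.of_apply, Matrix.of_apply,
      φ.map_add, φ.map_smul, hφx, Polynomial.coe_evalRingHom, Polynomial.eval_add,
      Polynomial.eval_mul, Polynomial.eval_C, Polynomial.eval_X, Polynomial.eval_C, Pi.add_apply,
      Pi.smul_apply, smul_eq_mul]
  refine ⟨Δ, ?_, fun s hs => ?_⟩
  · intro h0
    have h1 := hev 0
    rw [h0, Polynomial.eval_zero] at h1
    have h2 : (Matrix.of fun a b : ι => φ (x a + (0 : k) • y a) b) = 1 := by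
      ext a b
      rw [Matrix.of_apply, zero_smul, add_zero, hφx, Matrix.one_apply, Pi.single_apply]
      by_cases h : a = b
      · rw [if_pos h, if_pos h.symm]
      · rw [if_neg h, if_neg (Ne.symm h)]
    rw [h2, Matrix.det_one] at h1
    exact zero_ne_one h1
  · rw [hev] at hs
    have h1 : LinearIndependent k (Matrix.of fun a b : ι => φ (x a + s • y a) b).row :=
      Matrix.linearIndependent_rows_iff_isUnit.2
        ((Matrix.isUnit_iff_isUnit_det _).2 (isUnit_iff_ne_zero.2 hs))
    exact LinearIndependent.of_comp φ h1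

end Rank

section Main

variable {k A : Type*} [Field k] [CommRing A] [Algebra k A]

/-- The dimension of `span (u) * W ^ (j - 1)` modulo `G`. -/
noncomputable def rk (W G : Submodule k A) (j : ℕ) {r : ℕ} (u : Fin r → A) : ℕ :=
  finrank k ((span k (Set.range u) * W ^ (j - 1)).map G.mkQ)

/-- `u` in `W ^ r` has maximal rank. -/
def IsMaxRk (W G : Submodule k A) (j : ℕ) {r : ℕ} (u : Fin r → A) : Prop :=
  (∀ i, u i ∈ W) ∧ ∀ u' : Fin r → A, (∀ i, u' i ∈ W) → rk W G j u' ≤ rk W G j u

theorem mem_span_range_mul {r : ℕ} {u : Fin r → A} {P : Submodule k A} {x : A} :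
    x ∈ span k (Set.range u) * P ↔ ∃ v : Fin r → A, (∀ i, v i ∈ P) ∧ x = ∑ i, u i * v i := by
  constructor
  · intro hx
    induction hx using Submodule.mul_induction_on' with
    | mem_mul_mem a ha b hb =>
      rw [mem_span_range_iff_exists_fun] at ha
      obtain ⟨c, rfl⟩ := ha
      refine ⟨fun i => c i • b, fun i => P.smul_mem _ hb, ?_⟩
      rw [Finset.sum_mul]
      exact Finset.sum_congr rfl fun i _ => by rw [smul_mul_assoc, mul_smul_comm]
    | add x _ y _ hx hy =>
      obtain ⟨v, hv, rfl⟩ := hx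
      obtain ⟨w, hw, rfl⟩ := hy
      refine ⟨fun i => v i + w i, fun i => P.add_mem (hv i) (hw i), ?_⟩
      rw [← Finset.sum_add_distrib]
      exact Finset.sum_congr rfl fun i _ => by rw [mul_add]
  · rintro ⟨v, hv, rfl⟩
    exact sum_mem fun i _ => mul_mem_mul (subset_span ⟨i, rfl⟩) (hv i)

theorem finite_mul (W : Submodule k A) [FiniteDimensional k W] (j : ℕ) {r : ℕ} (u : Fin r → A) :
    FiniteDimensional k ↥(span k (Set.range u) * W ^ j) := by
  refine Module.Finite.iff_fg.2 (Submodule.FG.mul ?_ ?_)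
  · exact Submodule.fg_span (Set.finite_range u)
  · exact Submodule.FG.pow (Module.Finite.iff_fg.1 inferInstance) j

theorem rk_le (W G : Submodule k A) [FiniteDimensional k W] {j : ℕ} (hj : 1 ≤ j) {r : ℕ}
    {u : Fin r → A} (hu : ∀ i, u i ∈ W) : rk W G j u ≤ finrank k ((W ^ j).map G.mkQ) := by
  have hfd : FiniteDimensional k ((W ^ j).map G.mkQ) := by
    have : (W ^ j).FG := Submodule.FG.pow (Module.Finite.iff_fg.mp inferInstance) j
    exact Module.Finite.iff_fg.mpr (this.map _)
  refine Submodule.finrank_mono (Submodule.map_mono ?_)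
  have h1 : W ^ j = W * W ^ (j - 1) := by
    rw [← pow_succ', Nat.sub_add_cancel hj]
  rw [h1]
  refine mul_le_mul' ?_ le_rfl
  rw [span_le]
  rintro _ ⟨i, rfl⟩
  exact hu i

/-- Tuples of maximal rank exist. -/
theorem exists_isMaxRk (W G : Submodule k A) [FiniteDimensional k W] {j : ℕ} (hj : 1 ≤ j)
    (r : ℕ) : ∃ u : Fin r → A, IsMaxRk W G j u := by
  classical
  obtain ⟨P, hP⟩ : ∃ P : ℕ → Prop, P = fun d => ∃ u : Fin r → A, (∀ i, u i ∈ W) ∧
      rk W G j u = d := ⟨_, rfl⟩
  have hbd : ∀ d, P d → d ≤ finrank k ((W ^ j).map G.mkQ) := by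
    intro d hd
    rw [hP] at hd
    obtain ⟨u, hu, rfl⟩ := hd
    exact rk_le W G hj hu
  have h0 : P (rk W G j (fun _ : Fin r => (0 : A))) := by
    rw [hP]
    exact ⟨fun _ => 0, fun _ => W.zero_mem, rfl⟩
  have h1 := Nat.findGreatest_spec (hbd _ h0) h0
  rw [hP] at h1
  obtain ⟨u, hu, hur⟩ := h1
  refine ⟨u, hu, fun u' hu' => ?_⟩
  rw [hur]
  rw [← hP]
  have h2 : P (rk W G j u') := by rw [hP]; exact ⟨u', hu', rfl⟩
  exact Nat.le_findGreatest (hbd _ h2) h2

/-- **Effective Noether normalisation.** -/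
theorem pow_mem_of_isMaxRk [Infinite k] (W G : Submodule k A) [FiniteDimensional k W] {j r : ℕ}
    (hj : 1 ≤ j) (h : finrank k ((W ^ j).map G.mkQ) < (j + r).choose r) {u : Fin r → A}
    (hu : IsMaxRk W G j u) {w : A} (hw : w ∈ W) :
    w ^ j ∈ span k (Set.range u) * W ^ (j - 1) ⊔ G := by
  classical
  by_contra hcon
  have hjs : j - 1 + 1 = j := Nat.sub_add_cancel hj
  have hwj : G.mkQ (w ^ j) ∉ (span k (Set.range u) * W ^ (j - 1)).map G.mkQ := by
    intro h1
    apply hcon
    have h2 : w ^ j ∈ ((span k (Set.range u) * W ^ (j - 1)).map G.mkQ).comap G.mkQ := h1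
    rwa [Submodule.comap_map_eq, Submodule.ker_mkQ] at h2
  obtain ⟨I, hI⟩ : ∃ I, I = (span k (Set.range u) * W ^ (j - 1)).map G.mkQ := ⟨_, rfl⟩
  have hfdI : FiniteDimensional k I := by
    have h1 := finite_mul W (j - 1) u
    rw [hI]
    exact Module.Finite.map _ _
  obtain ⟨b, -⟩ : ∃ b : Basis (Fin (finrank k I)) k I, True := ⟨Module.finBasis k I, trivial⟩
  have hv : ∀ a, ∃ v : Fin r → A, (∀ i, v i ∈ W ^ (j - 1)) ∧
      (b a : A ⧸ G) = G.mkQ (∑ i, u i * v i) := by
    intro a
    have h1 : (b a : A ⧸ G) ∈ (span k (Set.range u) * W ^ (j - 1)).map G.mkQ := by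
      rw [← hI]; exact (b a).2
    obtain ⟨x, hx, hxb⟩ := h1
    obtain ⟨v, hv, rfl⟩ := mem_span_range_mul.1 hx
    exact ⟨v, hv, hxb.symm⟩
  choose v hvW hvb using hv
  -- the form
  obtain ⟨F, hF0, hFh, hFG⟩ := exists_form_deg W G j r h (Fin.snoc u w) (by
    intro i
    refine Fin.lastCases ?_ (fun i => ?_) i
    · rw [Fin.snoc_last]; exact hw
    · rw [Fin.snoc_castSucc]; exact hu.1 i)
  -- a point with `F (c, 1) ≠ 0`
  obtain ⟨c, hc⟩ : ∃ c : Fin r → k, eval (Fin.snoc c 1 : Fin (r + 1) → k) F ≠ 0 := by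
    by_contra hcon2
    push Not at hcon2
    apply hF0
    -- `F` vanishes at all points with last coordinate different from `0`
    have h1 : ∀ d : Fin (r + 1) → k, d (Fin.last r) ≠ 0 → eval d F = 0 := by
      intro d hd
      have h2 := hcon2 fun i => d i.castSucc / d (Fin.last r)
      have h3 : d = fun i => d (Fin.last r) •
          (Fin.snoc (fun i => d (Fin.castSucc i) / d (Fin.last r)) 1 : Fin (r + 1) → k) i := by
        funext i
        refine Fin.lastCases ?_ (fun i => ?_) i
        · rw [Fin.snoc_last, smul_eq_mul, mul_one]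
        · rw [Fin.snoc_castSucc, smul_eq_mul, mul_div_cancel₀ _ hd]
      have h5 : eval d F = d (Fin.last r) ^ j * eval (Fin.snoc (fun i => d (Fin.castSucc i) /
          d (Fin.last r)) 1 : Fin (r + 1) → k) F := by
        conv_lhs => rw [h3]
        rw [eval_eq', eval_eq', Finset.mul_sum]
        refine Finset.sum_congr rfl fun α hα => ?_
        have h6 : ∑ i, α i = j := by
          have h7 := hFh (mem_support_iff.mp hα)
          rw [Finsupp.weight_apply, Finsupp.sum_fintype] at h7
          · simpa using h7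
          · simp
        simp only [smul_eq_mul, mul_pow, Finset.prod_mul_distrib, Finset.prod_pow_eq_pow_sum, h6]
        ring
      rw [h5, h2, mul_zero]
    have h2 : F * X (Fin.last r) = 0 := by
      refine MvPolynomial.funext fun d => ?_
      rw [map_mul, eval_X, map_zero]
      by_cases hd : d (Fin.last r) = 0
      · rw [hd, mul_zero]
      · rw [h1 d hd, zero_mul]
    exact (mul_eq_zero.1 h2).resolve_right (X_ne_zero _)
  -- the line
  obtain ⟨us, hus⟩ : ∃ us : k → Fin r → A, ∀ s i, us s i = u i - (s * c i) • w :=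
    ⟨fun s i => u i - (s * c i) • w, fun s i => rfl⟩
  have husW : ∀ s i, us s i ∈ W := fun s i => by
    rw [hus]; exact W.sub_mem (hu.1 i) (W.smul_mem _ hw)
  -- the polynomial `F (s c, 1)`
  obtain ⟨p, hp⟩ : ∃ p : Polynomial k, p = aeval (Fin.snoc (fun i => Polynomial.X *
      Polynomial.C (c i)) 1 : Fin (r + 1) → Polynomial k) F := ⟨_, rfl⟩
  have hpe : ∀ s, p.eval s = eval (Fin.snoc (fun i => s * c i) 1 : Fin (r + 1) → k) F := by
    intro s
    have h1 : ∀ P : MvPolynomial (Fin (r + 1)) k, (aeval (Fin.snoc (fun i => Polynomial.X *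
        Polynomial.C (c i)) 1 : Fin (r + 1) → Polynomial k) P).eval s =
        eval (Fin.snoc (fun i => s * c i) 1 : Fin (r + 1) → k) P := by
      intro P
      induction P using MvPolynomial.induction_on with
      | C a => simp
      | add P Q hP hQ => rw [map_add, Polynomial.eval_add, hP, hQ, map_add]
      | mul_X P i hP =>
        rw [map_mul, Polynomial.eval_mul, hP, map_mul, aeval_X, eval_X]
        congr 1
        refine Fin.lastCases ?_ (fun i => ?_) i
        · rw [Fin.snoc_last, Fin.snoc_last, Polynomial.eval_one]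
        · rw [Fin.snoc_castSucc, Fin.snoc_castSucc, Polynomial.eval_mul, Polynomial.eval_X,
            Polynomial.eval_C]
    rw [hp, h1]
  have hp0 : p ≠ 0 := by
    intro h0
    apply hc
    have h1 := hpe 1
    rw [h0, Polynomial.eval_zero] at h1
    simp only [one_mul] at h1
    exact h1.symm
  -- independence
  obtain ⟨x, hx⟩ : ∃ x : Option (Fin (finrank k I)) → A ⧸ G, x = fun a =>
      a.elim (G.mkQ (w ^ j)) fun a => (b a : A ⧸ G) := ⟨_, rfl⟩
  obtain ⟨y, hy⟩ : ∃ y : Option (Fin (finrank k I)) → A ⧸ G, y = fun a =>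
      a.elim 0 fun a => - G.mkQ (∑ i, c i • (w * v a i)) := ⟨_, rfl⟩
  have hxind : LinearIndependent k x := by
    have h1 : x = fun a : Option (Fin (finrank k I)) => Option.casesOn' a (G.mkQ (w ^ j))
        ((↑) ∘ b : Fin (finrank k I) → A ⧸ G) := by
      funext a
      rw [hx]
      cases a <;> rfl
    rw [h1, linearIndependent_option']
    constructor
    · exact b.linearIndependent.map' I.subtype I.ker_subtype
    · have h2 : span k (Set.range ((↑) ∘ b : Fin (finrank k I) → A ⧸ G)) = I := by
        rw [Set.range_comp, ← Submodule.coe_subtype, ← Submodule.map_span, b.span_eq,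
          Submodule.map_top, Submodule.range_subtype]
      rw [h2, hI]
      exact hwj
  obtain ⟨Δ, hΔ0, hΔ⟩ := indep_line x y hxind
  obtain ⟨s, hs⟩ : ∃ s, (Δ * p).eval s ≠ 0 := by
    by_contra hcon2
    push Not at hcon2
    exact mul_ne_zero hΔ0 hp0 (Polynomial.funext fun s => by rw [hcon2 s, Polynomial.eval_zero])
  rw [Polynomial.eval_mul, mul_ne_zero_iff, hpe] at hs
  have hind := hΔ s hs.1
  -- `w ^ j` belongs to the space of `us s`
  have hmem1 : w ^ j ∈ span k (Set.range (us s)) * W ^ (j - 1) ⊔ G := by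
    have h1 := aeval_sub_mem_Jd (U := span k (Set.range (us s))) (W := W) (Fin.snoc u w)
      (fun i => (Fin.snoc (fun i => s * c i) 1 : Fin (r + 1) → k) i • w) (by
        intro i
        refine Fin.lastCases ?_ (fun i => ?_) i
        · rw [Fin.snoc_last, Fin.snoc_last, one_smul]
          exact ⟨by rwa [pow_one], by rwa [pow_one], by rw [sub_self]; exact Submodule.zero_mem _⟩
        · rw [Fin.snoc_castSucc, Fin.snoc_castSucc]
          refine ⟨by rw [pow_one]; exact hu.1 i, by rw [pow_one]; exact W.smul_mem _ hw, ?_⟩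
          change _ ∈ span k (Set.range (us s)) * W ^ 0
          rw [pow_zero, mul_one, ← hus]
          exact subset_span ⟨i, rfl⟩) F j hFh
    rw [aeval_smul_const _ _ F j hFh] at h1
    have h2 : Jd (span k (Set.range (us s))) W j = span k (Set.range (us s)) * W ^ (j - 1) := by
      obtain ⟨i, rfl⟩ : ∃ i, j = i + 1 := ⟨j - 1, hjs.symm⟩
      rfl
    rw [h2] at h1
    have h3 : eval (Fin.snoc (fun i => s * c i) 1 : Fin (r + 1) → k) F • w ^ j ∈
        span k (Set.range (us s)) * W ^ (j - 1) ⊔ G := by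
      have h4 := Submodule.sub_mem _ (Submodule.mem_sup_right (S :=
        span k (Set.range (us s)) * W ^ (j - 1)) hFG) (Submodule.mem_sup_left (T := G) h1)
      rwa [sub_sub_cancel] at h4
    have h5 := Submodule.smul_mem _ (eval (Fin.snoc (fun i => s * c i) 1 :
      Fin (r + 1) → k) F)⁻¹ h3
    rwa [smul_smul, inv_mul_cancel₀ hs.2, one_smul] at h5
  obtain ⟨Is, hIs⟩ : ∃ Is, Is = (span k (Set.range (us s)) * W ^ (j - 1)).map G.mkQ := ⟨_, rfl⟩
  have hfdIs : FiniteDimensional k Is := by
    have h1 := finite_mul W (j - 1) (us s)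
    rw [hIs]
    exact Module.Finite.map _ _
  have hmem : ∀ a, x a + s • y a ∈ Is := by
    intro a
    rw [hx, hy, hIs]
    cases a with
    | none =>
      simp only [Option.elim_none, smul_zero, add_zero]
      have h1 : G.mkQ (w ^ j) ∈ (span k (Set.range (us s)) * W ^ (j - 1) ⊔ G).map G.mkQ :=
        Submodule.mem_map_of_mem hmem1
      rw [Submodule.map_sup] at h1
      have h2 : G.map G.mkQ = ⊥ := by
        rw [eq_bot_iff]
        rintro _ ⟨g, hg, rfl⟩
        rw [Submodule.mkQ_apply]
        exact (Submodule.Quotient.mk_eq_zero G).2 hg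
      rwa [h2, sup_bot_eq] at h1
    | some a =>
      simp only [Option.elim_some]
      rw [hvb a]
      have h1 : G.mkQ (∑ i, u i * v a i) + s • -G.mkQ (∑ i, c i • (w * v a i)) =
          G.mkQ (∑ i, us s i * v a i) := by
        rw [smul_neg, ← sub_eq_add_neg, ← map_smul, ← map_sub, Finset.smul_sum,
          ← Finset.sum_sub_distrib]
        congr 1
        refine Finset.sum_congr rfl fun i _ => ?_
        rw [hus, sub_mul, smul_mul_assoc, smul_smul]
      rw [h1]
      exact Submodule.mem_map_of_mem (mem_span_range_mul.2 ⟨v a, hvW a, rfl⟩)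
  have hcard : finrank k I + 1 ≤ finrank k Is := by
    obtain ⟨f, hf⟩ : ∃ f : Option (Fin (finrank k I)) → Is, ∀ a, (f a : A ⧸ G) = x a + s • y a :=
      ⟨fun a => ⟨_, hmem a⟩, fun a => rfl⟩
    have h1 : LinearIndependent k f := by
      refine LinearIndependent.of_comp Is.subtype ?_
      have h2 : (Is.subtype ∘ f) = fun a => x a + s • y a := by
        funext a
        exact hf a
      rw [h2]
      exact hind
    have h2 := h1.fintype_card_le_finrank
    rwa [Fintype.card_option, Fintype.card_fin] at h2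
  have hle := hu.2 (us s) (husW s)
  unfold rk at hle
  rw [← hIs, ← hI] at hle
  omega

end Main

end Pool.Agent.TGh33
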