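import Pool.Agent.Lib.TG_h33.ES

/-!
# Consequences of the effective Noether normalisation in a local ring
-/

set_option autoImplicit false

open Submodule Module
open scoped Pointwise

namespace Pool.Agent.TGh33

section Pow

variable {k A : Type*} [Field k] [CommRing A] [Algebra k A]

theorem pow_mul_le {W : Submodule k A} {G : ℕ → Submodule k A} (hG : ∀ t, W * G t ≤ G (t + 1))
    (a t : ℕ) : W ^ a * G t ≤ G (t + a) := by
  induction a with
  | zero => rw [pow_zero, one_mul, add_zero]
  | succ a ih =>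
    calc W ^ (a + 1) * G t = W * (W ^ a * G t) := by rw [pow_succ', mul_assoc]
      _ ≤ W * G (t + a) := mul_le_mul' le_rfl ih
      _ ≤ G (t + a + 1) := hG _

theorem mem_range_pow {N : ℕ} (b : Fin N → A) (s : ℕ) {x : A} (hx : x ∈ (Set.range b) ^ s) :
    ∃ α : Fin N → ℕ, ∑ i, α i = s ∧ x = ∏ i, b i ^ α i := by
  classical
  induction s generalizing x with
  | zero =>
    rw [pow_zero, Set.mem_one] at hx
    exact ⟨fun _ => 0, by simp, by simp [hx]⟩
  | succ s ih =>
    rw [pow_succ, Set.mem_mul] at hx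
    obtain ⟨y, hy, _, ⟨i₀, rfl⟩, rfl⟩ := hx
    obtain ⟨α, hα, rfl⟩ := ih hy
    refine ⟨fun i => α i + (Pi.single i₀ 1 : Fin N → ℕ) i, ?_, ?_⟩
    · rw [Finset.sum_add_distrib, hα, Finset.sum_pi_single']
      simp
    · simp only [pow_add, Finset.prod_mul_distrib]
      congr 1
      rw [Finset.prod_eq_single i₀]
      · rw [Pi.single_eq_same, pow_one]
      · intro i _ hi
        rw [Pi.single_eq_of_ne hi, pow_zero]
      · intro h; exact absurd (Finset.mem_univ _) h

/-- If `w ^ j` belongs to `U * W ^ (j - 1) + G j` for all `w` in `W` then `W ^ s` is contained in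
`U * W ^ (s - 1) + G s` for `s > (dim W) (j - 1)`. -/
theorem pow_le_of_pow_mem (W : Submodule k A) [FiniteDimensional k W] (G : ℕ → Submodule k A)
    (hG : ∀ t, W * G t ≤ G (t + 1)) (U : Submodule k A) {j : ℕ} (hj : 1 ≤ j)
    (h : ∀ w ∈ W, w ^ j ∈ U * W ^ (j - 1) ⊔ G j) {s : ℕ} (hs : finrank k W * (j - 1) + 1 ≤ s) :
    W ^ s ≤ U * W ^ (s - 1) ⊔ G s := by
  classical
  obtain ⟨b, hb⟩ : ∃ b : Fin (finrank k W) → A, span k (Set.range b) = W := by
    refine ⟨fun i => (Module.finBasis k W i : A), ?_⟩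
    have h1 : Set.range (fun i => (Module.finBasis k W i : A)) =
        W.subtype '' Set.range (Module.finBasis k W) := by
      rw [← Set.range_comp]; rfl
    rw [h1, ← Submodule.map_span, (Module.finBasis k W).span_eq, Submodule.map_top,
      Submodule.range_subtype]
  have hbW : ∀ i, b i ∈ W := fun i => by rw [← hb]; exact subset_span ⟨i, rfl⟩
  conv_lhs => rw [← hb, Submodule.span_pow]
  rw [span_le]
  intro x hx
  obtain ⟨α, hα, rfl⟩ := mem_range_pow b s hx
  obtain ⟨i₀, hi₀⟩ : ∃ i, j ≤ α i := by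
    by_contra hcon
    push Not at hcon
    have h1 : ∑ i, α i ≤ ∑ _i : Fin (finrank k W), (j - 1) :=
      Finset.sum_le_sum fun i _ => by have := hcon i; omega
    rw [hα, Finset.sum_const, Finset.card_univ, Fintype.card_fin, smul_eq_mul] at h1
    omega
  have hjs : j ≤ s := by
    rw [← hα]
    exact hi₀.trans (Finset.single_le_sum (fun i _ => Nat.zero_le (α i)) (Finset.mem_univ i₀))
  -- the complementary monomial
  obtain ⟨β, hβ⟩ : ∃ β : Fin (finrank k W) → ℕ, ∀ i, β i = α i - (Pi.single i₀ j :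
      Fin (finrank k W) → ℕ) i := ⟨_, fun i => rfl⟩
  have hβα : ∀ i, α i = (Pi.single i₀ j : Fin (finrank k W) → ℕ) i + β i := by
    intro i
    rw [hβ]
    by_cases hi : i = i₀
    · rw [hi, Pi.single_eq_same]; omega
    · rw [Pi.single_eq_of_ne hi]; omega
  have hprod : ∏ i, b i ^ α i = b i₀ ^ j * ∏ i, b i ^ β i := by
    simp only [hβα, pow_add, Finset.prod_mul_distrib]
    congr 1
    rw [Finset.prod_eq_single i₀]
    · rw [Pi.single_eq_same]
    · intro i _ hi
      rw [Pi.single_eq_of_ne hi, pow_zero]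
    · intro h; exact absurd (Finset.mem_univ _) h
  have hβs : ∑ i, β i = s - j := by
    have h1 : ∑ i, α i = j + ∑ i, β i := by
      simp only [hβα, Finset.sum_add_distrib]
      congr 1
      rw [Finset.sum_pi_single']
      simp
    rw [hα] at h1
    omega
  have hβW : ∏ i, b i ^ β i ∈ W ^ (s - j) := by
    rw [← hβs]
    have h2 : ∀ S : Finset (Fin (finrank k W)), ∏ i ∈ S, b i ^ β i ∈ W ^ (∑ i ∈ S, β i) := by
      intro S
      induction S using Finset.induction_on with
      | empty =>
        rw [Finset.prod_empty, Finset.sum_empty, pow_zero]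
        exact Submodule.one_le.1 le_rfl
      | insert i S hi ih =>
        rw [Finset.prod_insert hi, Finset.sum_insert hi, pow_add]
        exact mul_mem_mul (Submodule.pow_mem_pow _ (hbW i) _) ih
    exact h2 _
  rw [hprod]
  have h3 := mul_mem_mul (h (b i₀) (hbW i₀)) hβW
  rw [Submodule.sup_mul] at h3
  refine (sup_le_sup ?_ ?_ : _ ≤ U * W ^ (s - 1) ⊔ G s) h3
  · rw [mul_assoc, ← pow_add]
    have h4 : j - 1 + (s - j) = s - 1 := by omega
    rw [h4]
  · rw [mul_comm]
    have h4 := pow_mul_le hG (s - j) j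
    have h5 : j + (s - j) = s := by omega
    rwa [h5] at h4

end Pow

section Local

open IsLocalRing

variable {k O : Type*} [Field k] [CommRing O] [IsLocalRing O] [Algebra k O]

/-- The data: `m = (W)` and `O = k + m`. -/
structure LocW (k : Type*) {O : Type*} [Field k] [CommRing O] [IsLocalRing O] [Algebra k O]
    (W : Submodule k O) : Prop where
  span_eq : Ideal.span (W : Set O) = maximalIdeal O
  res : ∀ x : O, ∃ c : k, x - algebraMap k O c ∈ maximalIdeal O

variable {W : Submodule k O}

theorem LocW.le (h : LocW k W) {w : O} (hw : w ∈ W) : w ∈ maximalIdeal O := by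
  rw [← h.span_eq]; exact Ideal.subset_span hw

theorem LocW.pow_le (h : LocW k W) (i : ℕ) {x : O} (hx : x ∈ W ^ i) :
    x ∈ maximalIdeal O ^ i := by
  induction i generalizing x with
  | zero => rw [pow_zero, Ideal.one_eq_top]; exact Submodule.mem_top
  | succ i ih =>
    rw [pow_succ] at hx
    induction hx using Submodule.mul_induction_on' with
    | mem_mul_mem a ha b hb =>
      rw [pow_succ]
      exact Ideal.mul_mem_mul (ih ha) (h.le hb)
    | add x _ y _ hx hy => exact Ideal.add_mem _ hx hy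

/-- `m ^ i = W ^ i + m ^ (i + 1)`. -/
theorem LocW.mem_sup (h : LocW k W) (i : ℕ) {x : O} (hx : x ∈ maximalIdeal O ^ i) :
    x ∈ W ^ i ⊔ (maximalIdeal O ^ (i + 1)).restrictScalars k := by
  induction i generalizing x with
  | zero =>
    obtain ⟨c, hc⟩ := h.res x
    rw [pow_zero]
    have h1 : x = algebraMap k O c + (x - algebraMap k O c) := by ring
    rw [h1]
    refine Submodule.add_mem _ (Submodule.mem_sup_left ?_) (Submodule.mem_sup_right ?_)
    · rw [Submodule.mem_one]; exact ⟨c, rfl⟩
    · rw [zero_add, pow_one]; exact hc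
  | succ i ih =>
    rw [pow_succ, mul_comm] at hx
    induction hx using Submodule.mul_induction_on' with
    | mem_mul_mem a ha b hb =>
      -- `a` is in `m`
      rw [← h.span_eq] at ha
      induction ha using Submodule.span_induction with
      | mem w hw =>
        obtain ⟨y, hy, z, hz, hyz⟩ := Submodule.mem_sup.1 (ih hb)
        rw [← hyz, mul_add]
        refine Submodule.add_mem _ (Submodule.mem_sup_left ?_) (Submodule.mem_sup_right ?_)
        · rw [pow_succ']; exact mul_mem_mul hw hy
        · have h1 : w * z ∈ maximalIdeal O * maximalIdeal O ^ (i + 1) :=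
            Ideal.mul_mem_mul (h.le hw) hz
          rw [← pow_succ'] at h1
          exact h1
      | zero => rw [zero_mul]; exact Submodule.zero_mem _
      | add p q _ _ hp hq => rw [add_mul]; exact Submodule.add_mem _ hp hq
      | smul c p hp1 hp =>
        obtain ⟨c', hc'⟩ := h.res c
        have h1 : c • p * b = c' • (p * b) + (c - algebraMap k O c') * (p * b) := by
          rw [smul_eq_mul, Algebra.smul_def]; ring
        rw [h1]
        refine Submodule.add_mem _ (Submodule.smul_mem _ _ hp) (Submodule.mem_sup_right ?_)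
        have h2 : p ∈ maximalIdeal O := by
          rw [← h.span_eq]; exact hp1
        have h3 : (c - algebraMap k O c') * (p * b) ∈
            maximalIdeal O * (maximalIdeal O * maximalIdeal O ^ i) :=
          Ideal.mul_mem_mul hc' (Ideal.mul_mem_mul h2 hb)
        rw [← pow_succ', ← pow_succ'] at h3
        exact h3
    | add x _ y _ hx hy => exact Submodule.add_mem _ hx hy

/-- `W ^ i` modulo `J + m ^ (i + 1)` is `(J + m ^ i) / (J + m ^ (i + 1))`. -/
theorem LocW.map_eq (h : LocW k W) (J : Ideal O) (i : ℕ) :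
    (W ^ i).map ((J ⊔ maximalIdeal O ^ (i + 1)).restrictScalars k).mkQ =
      ((J ⊔ maximalIdeal O ^ i).restrictScalars k).map
        ((J ⊔ maximalIdeal O ^ (i + 1)).restrictScalars k).mkQ := by
  apply le_antisymm
  · refine Submodule.map_mono fun x hx => ?_
    exact Ideal.mem_sup_right (h.pow_le i hx)
  · rintro _ ⟨x, hx, rfl⟩
    obtain ⟨a, ha, b, hb, hab⟩ := Submodule.mem_sup.1 (show x ∈ J ⊔ maximalIdeal O ^ i from hx)
    obtain ⟨y, hy, z, hz, hyz⟩ := Submodule.mem_sup.1 (h.mem_sup i hb)
    refine ⟨y, hy, ?_⟩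
    rw [Submodule.mkQ_apply, Submodule.mkQ_apply, Submodule.Quotient.eq]
    have h1 : y - x = -a - z := by rw [← hab, ← hyz]; ring
    rw [h1]
    exact Ideal.sub_mem _ (Ideal.mem_sup_left (J.neg_mem ha)) (Ideal.mem_sup_right hz)

theorem LocW.fin (h : LocW k W) [FiniteDimensional k W] (J : Ideal O) (i : ℕ) :
    FiniteDimensional k (O ⧸ (J ⊔ maximalIdeal O ^ i).restrictScalars k) := by
  induction i with
  | zero =>
    have h1 : (J ⊔ maximalIdeal O ^ 0).restrictScalars k = ⊤ := by
      rw [pow_zero, Ideal.one_eq_top, sup_top_eq]; rfl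
    rw [h1]
    infer_instance
  | succ i ih =>
    obtain ⟨P, hP⟩ : ∃ P : Submodule k O, P = (J ⊔ maximalIdeal O ^ (i + 1)).restrictScalars k :=
      ⟨_, rfl⟩
    obtain ⟨R, hR⟩ : ∃ R : Submodule k O, R = (J ⊔ maximalIdeal O ^ i).restrictScalars k :=
      ⟨_, rfl⟩
    have h1 : FiniteDimensional k (R.map P.mkQ) := by
      rw [hR, hP, ← h.map_eq J i]
      have : (W ^ i).FG := Submodule.FG.pow (Module.Finite.iff_fg.mp inferInstance) i
      exact Module.Finite.iff_fg.mpr (this.map _)
    have h2 : FiniteDimensional k ((O ⧸ P) ⧸ R.map P.mkQ) := by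
      rw [← hR] at ih
      have hPR : P ≤ R := by
        rw [hP, hR]
        intro x hx
        exact (sup_le_sup le_rfl (Ideal.pow_le_pow_right (Nat.le_succ i)) :
          J ⊔ maximalIdeal O ^ (i + 1) ≤ J ⊔ maximalIdeal O ^ i) hx
      exact Module.Finite.equiv (Submodule.quotientQuotientEquivQuotient P R hPR).symm
    rw [← hP]
    exact Module.Finite.of_submodule_quotient (R.map P.mkQ)

/-- The dimension of `(J + m ^ i) / (J + m ^ (i + 1))`. -/
noncomputable def gr (k : Type*) {O : Type*} [Field k] [CommRing O] [IsLocalRing O] [Algebra k O]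
    (W : Submodule k O) (J : Ideal O) (i : ℕ) : ℕ :=
  finrank k ((W ^ i).map ((J ⊔ maximalIdeal O ^ (i + 1)).restrictScalars k).mkQ)

/-- The dimension of `O / (J + m ^ i)`. -/
noncomputable def len (k : Type*) {O : Type*} [Field k] [CommRing O] [IsLocalRing O] [Algebra k O]
    (J : Ideal O) (i : ℕ) : ℕ :=
  finrank k (O ⧸ (J ⊔ maximalIdeal O ^ i).restrictScalars k)

theorem LocW.len_succ (h : LocW k W) [FiniteDimensional k W] (J : Ideal O) (i : ℕ) :
    len k J (i + 1) = len k J i + gr k W J i := by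
  obtain ⟨P, hP⟩ : ∃ P : Submodule k O, P = (J ⊔ maximalIdeal O ^ (i + 1)).restrictScalars k :=
    ⟨_, rfl⟩
  obtain ⟨R, hR⟩ : ∃ R : Submodule k O, R = (J ⊔ maximalIdeal O ^ i).restrictScalars k :=
    ⟨_, rfl⟩
  have hPR : P ≤ R := by
    rw [hP, hR]
    intro x hx
    exact (sup_le_sup le_rfl (Ideal.pow_le_pow_right (Nat.le_succ i)) :
      J ⊔ maximalIdeal O ^ (i + 1) ≤ J ⊔ maximalIdeal O ^ i) hx
  have hfd := h.fin J (i + 1)
  rw [← hP] at hfd
  have h1 := Submodule.finrank_quotient_add_finrank (R.map P.mkQ)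
  have h2 : finrank k ((O ⧸ P) ⧸ R.map P.mkQ) = finrank k (O ⧸ R) :=
    (Submodule.quotientQuotientEquivQuotient P R hPR).finrank_eq
  unfold len gr
  rw [h.map_eq, ← hP, ← hR, ← h1, h2]

theorem len_zero (J : Ideal O) : len k J 0 = 0 := by
  unfold len
  have h1 : (J ⊔ maximalIdeal O ^ 0).restrictScalars k = ⊤ := by
    rw [pow_zero, Ideal.one_eq_top, sup_top_eq]; rfl
  rw [h1]
  exact finrank_zero_of_subsingleton

/-- A level `j < t` with a small graded piece. -/
theorem LocW.exists_level (h : LocW k W) [FiniteDimensional k W] (J : Ideal O)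
    (hJ : J ≤ maximalIdeal O) {t r : ℕ}
    (hsum : ∑ i ∈ Finset.range t, len k J i < (t + r).choose (r + 2)) :
    ∃ j, 1 ≤ j ∧ j < t ∧ gr k W J j < (j + r).choose r := by
  by_contra hcon
  push Not at hcon
  have hg0 : 1 ≤ gr k W J 0 := by
    unfold gr
    have hfd := h.fin J (0 + 1)
    rw [Nat.one_le_iff_ne_zero, Ne, Submodule.finrank_eq_zero]
    intro hle
    have h1 : (1 : O) ∈ W ^ 0 := by rw [pow_zero]; exact Submodule.one_le.1 le_rfl
    have h2 : ((J ⊔ maximalIdeal O ^ (0 + 1)).restrictScalars k).mkQ 1 = 0 := by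
      have h3 : ((J ⊔ maximalIdeal O ^ (0 + 1)).restrictScalars k).mkQ 1 ∈
          (W ^ 0).map ((J ⊔ maximalIdeal O ^ (0 + 1)).restrictScalars k).mkQ :=
        Submodule.mem_map_of_mem h1
      rw [hle] at h3
      exact (Submodule.mem_bot k).1 h3
    rw [Submodule.mkQ_apply, Submodule.Quotient.mk_eq_zero] at h2
    have h3 : (1 : O) ∈ maximalIdeal O := by
      have h4 : J ⊔ maximalIdeal O ^ (0 + 1) ≤ maximalIdeal O := by
        rw [zero_add, pow_one]
        exact sup_le hJ le_rfl
      exact h4 h2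
    exact (Ideal.ne_top_iff_one _).1 (Ideal.IsPrime.ne_top inferInstance) h3
  have hgr : ∀ i < t, (i + r).choose r ≤ gr k W J i := by
    intro i hi
    rcases Nat.eq_zero_or_pos i with rfl | hpos
    · rw [zero_add, Nat.choose_self]; exact hg0
    · exact hcon i hpos hi
  have hlen : ∀ i ≤ t, (i + r).choose (r + 1) ≤ len k J i := by
    intro i
    induction i with
    | zero => intro _; rw [zero_add, Nat.choose_succ_self]; exact Nat.zero_le _
    | succ i ih =>
      intro hi
      rw [h.len_succ]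
      have h1 := ih (by omega)
      have h2 := hgr i (by omega)
      have h3 : (i + 1 + r).choose (r + 1) = (i + r).choose r + (i + r).choose (r + 1) := by
        have h4 : i + 1 + r = i + r + 1 := by ring
        rw [h4, Nat.choose_succ_succ]
      omega
  have hfin : ∀ s ≤ t, (s + r).choose (r + 2) ≤ ∑ i ∈ Finset.range s, len k J i := by
    intro s
    induction s with
    | zero =>
      intro _
      rw [zero_add, Nat.choose_eq_zero_of_lt (by omega)]
      exact Nat.zero_le _
    | succ s ih =>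
      intro hs
      rw [Finset.sum_range_succ]
      have h1 := ih (by omega)
      have h2 := hlen s (by omega)
      have h3 : (s + 1 + r).choose (r + 2) = (s + r).choose (r + 1) + (s + r).choose (r + 2) := by
        have h4 : s + 1 + r = s + r + 1 := by ring
        rw [h4, Nat.choose_succ_succ]
      omega
  have := hfin t le_rfl
  omega

/-- `m ^ s ≤ (u) + J` for every `u` of maximal rank at a small level. -/
theorem LocW.pow_le_span_sup [Infinite k] [IsNoetherianRing O] (h : LocW k W)
    [FiniteDimensional k W] (J : Ideal O) {j r : ℕ} (hj : 1 ≤ j)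
    (hgr : gr k W J j < (j + r).choose r) {u : Fin r → O}
    (hu : IsMaxRk W ((J ⊔ maximalIdeal O ^ (j + 1)).restrictScalars k) j u) {s : ℕ}
    (hs : finrank k W * (j - 1) + 1 ≤ s) :
    maximalIdeal O ^ s ≤ Ideal.span (Set.range u) ⊔ J := by
  obtain ⟨G, hG⟩ : ∃ G : ℕ → Submodule k O, ∀ t, G t =
      (J ⊔ maximalIdeal O ^ (t + 1)).restrictScalars k := ⟨_, fun t => rfl⟩
  have hGm : ∀ t, W * G t ≤ G (t + 1) := by
    intro t
    rw [hG, hG, Submodule.mul_le]
    intro w hw g hg
    obtain ⟨a, ha, b, hb, hab⟩ := Submodule.mem_sup.1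
      (show g ∈ J ⊔ maximalIdeal O ^ (t + 1) from hg)
    rw [← hab, mul_add]
    refine Ideal.add_mem _ (Ideal.mem_sup_left (J.mul_mem_left _ ha)) (Ideal.mem_sup_right ?_)
    have h1 : w * b ∈ maximalIdeal O * maximalIdeal O ^ (t + 1) := Ideal.mul_mem_mul (h.le hw) hb
    rwa [← pow_succ'] at h1
  have h1 : ∀ w ∈ W, w ^ j ∈ span k (Set.range u) * W ^ (j - 1) ⊔ G j := by
    intro w hw
    rw [hG]
    exact pow_mem_of_isMaxRk W _ hj hgr hu hw
  have h2 := pow_le_of_pow_mem W G hGm (span k (Set.range u)) hj h1 hs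
  have h3 : maximalIdeal O ^ s ≤ (Ideal.span (Set.range u) ⊔ J) ⊔ maximalIdeal O ^ (s + 1) := by
    intro x hx
    obtain ⟨y, hy, z, hz, hyz⟩ := Submodule.mem_sup.1 (h.mem_sup s hx)
    rw [← hyz]
    refine Ideal.add_mem _ ?_ (Ideal.mem_sup_right hz)
    obtain ⟨a, ha, b, hb, hab⟩ := Submodule.mem_sup.1 (h2 hy)
    rw [← hab]
    refine Ideal.add_mem _ ?_ ?_
    · refine Ideal.mem_sup_left (Ideal.mem_sup_left ?_)
      obtain ⟨v, -, rfl⟩ := mem_span_range_mul.1 ha
      exact Ideal.sum_mem _ fun i _ => Ideal.mul_mem_right _ _ (Ideal.subset_span ⟨i, rfl⟩)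
    · rw [hG] at hb
      obtain ⟨c, hc, d, hd, hcd⟩ := Submodule.mem_sup.1
        (show b ∈ J ⊔ maximalIdeal O ^ (s + 1) from hb)
      rw [← hcd]
      exact Ideal.add_mem _ (Ideal.mem_sup_left (Ideal.mem_sup_right hc)) (Ideal.mem_sup_right hd)
  have h4 : maximalIdeal O ^ (s + 1) = maximalIdeal O • maximalIdeal O ^ s := by
    rw [smul_eq_mul, pow_succ']
  rw [h4] at h3
  exact Submodule.le_of_le_smul_of_le_jacobson_bot
    (IsNoetherian.noetherian _) (IsLocalRing.maximalIdeal_le_jacobson _) h3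

/-- The dimension of `O / ((u) + J)` is at most that of `O / (J + m ^ s)`. -/
theorem LocW.finrank_le [Infinite k] [IsNoetherianRing O] (h : LocW k W)
    [FiniteDimensional k W] (J : Ideal O) {j r : ℕ} (hj : 1 ≤ j)
    (hgr : gr k W J j < (j + r).choose r) {u : Fin r → O}
    (hu : IsMaxRk W ((J ⊔ maximalIdeal O ^ (j + 1)).restrictScalars k) j u) {s : ℕ}
    (hs : finrank k W * (j - 1) + 1 ≤ s) :
    FiniteDimensional k (O ⧸ (Ideal.span (Set.range u) ⊔ J).restrictScalars k) ∧
      finrank k (O ⧸ (Ideal.span (Set.range u) ⊔ J).restrictScalars k) ≤ len k J s := by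
  have h1 : (J ⊔ maximalIdeal O ^ s).restrictScalars k ≤
      (Ideal.span (Set.range u) ⊔ J).restrictScalars k :=
    sup_le le_sup_right (h.pow_le_span_sup J hj hgr hu hs)
  have hfd := h.fin J s
  exact ⟨Module.Finite.of_surjective _ (Submodule.factor_surjective h1),
    LinearMap.finrank_le_finrank_of_surjective (Submodule.factor_surjective h1)⟩

end Local

end Pool.Agent.TGh33
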