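import Mathlib

/-!
# TANK G, block G1: the determinant `W(f) = det (f_j, D_1 f_j, .., D_n f_j)`

`D_1, .., D_n` are `k`-derivations of `K` (dual to a separating transcendence basis `z`, see `DB`).
-/

set_option autoImplicit false

open Finset Submodule Module

namespace Pool.Agent.TGh33

section basic

variable {k K : Type*} [Field k] [Field K] [Algebra k K] {n : ℕ}

/-- The row `(g, D_1 g, .., D_n g)`. -/
def row (D : Fin n → Derivation k K K) : K →ₗ[k] (Fin (n + 1) → K) where
  toFun g := Fin.cons g (fun i => D i g)
  map_add' g h := by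
    funext i
    refine Fin.cases ?_ (fun i => ?_) i
    · simp
    · simp
  map_smul' c g := by
    funext i
    refine Fin.cases ?_ (fun i => ?_) i
    · simp
    · simp

@[simp] theorem row_zero (D : Fin n → Derivation k K K) (g : K) : row D g 0 = g := rfl

@[simp] theorem row_succ (D : Fin n → Derivation k K K) (g : K) (i : Fin n) :
    row D g i.succ = D i g := rfl

/-- `W(f) = det (f_j, D_1 f_j, .., D_n f_j)`. -/
def Wr (D : Fin n → Derivation k K K) (f : Fin (n + 1) → K) : K :=
  (Matrix.of fun j => row D (f j)).det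

theorem Wr_def (D : Fin n → Derivation k K K) (f : Fin (n + 1) → K) :
    Wr D f = (Matrix.of fun j => row D (f j)).det := rfl

/-- `W` as a `k`-multilinear map. -/
def WrM (D : Fin n → Derivation k K K) : MultilinearMap k (fun _ : Fin (n + 1) => K) K :=
  ((Matrix.detRowAlternating (R := K) (n := Fin (n + 1))).toMultilinearMap.restrictScalars
    k).compLinearMap fun _ => row D

theorem WrM_apply (D : Fin n → Derivation k K K) (f : Fin (n + 1) → K) :
    WrM D f = Wr D f := rfl

theorem Wr_update_add (D : Fin n → Derivation k K K) (f : Fin (n + 1) → K) (i : Fin (n + 1))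
    (g h : K) : Wr D (Function.update f i (g + h)) =
      Wr D (Function.update f i g) + Wr D (Function.update f i h) :=
  (WrM D).map_update_add f i g h

theorem Wr_update_smul (D : Fin n → Derivation k K K) (f : Fin (n + 1) → K) (i : Fin (n + 1))
    (c : k) (g : K) : Wr D (Function.update f i (c • g)) = c • Wr D (Function.update f i g) :=
  (WrM D).map_update_smul f i c g

theorem Wr_eq_zero_of_eq (D : Fin n → Derivation k K K) (f : Fin (n + 1) → K)
    {i j : Fin (n + 1)} (hij : i ≠ j) (h : f i = f j) : Wr D f = 0 := by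
  rw [Wr_def]
  refine Matrix.det_zero_of_row_eq hij ?_
  funext l
  simp only [Matrix.of_apply, h]

theorem Wr_comp_perm (D : Fin n → Derivation k K K) (f : Fin (n + 1) → K)
    (σ : Equiv.Perm (Fin (n + 1))) : Wr D (f ∘ σ) = (σ.sign : ℤ) * Wr D f := by
  have h1 := Matrix.det_permute σ (Matrix.of fun j => row D (f j))
  rw [Wr_def, Wr_def, ← h1]
  rfl

/-- Base change. -/
theorem Wr_lin (D : Fin n → Derivation k K K) (M : Matrix (Fin (n + 1)) (Fin (n + 1)) k)
    (f : Fin (n + 1) → K) :
    Wr D (fun j => ∑ i, M j i • f i) = algebraMap k K M.det * Wr D f := by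
  have h1 : (Matrix.of fun j => row D (∑ i, M j i • f i)) =
      M.map (algebraMap k K) * Matrix.of fun j => row D (f j) := by
    ext j l
    rw [Matrix.of_apply, map_sum, Finset.sum_apply, Matrix.mul_apply]
    refine Finset.sum_congr rfl fun i _ => ?_
    rw [map_smul, Pi.smul_apply, Matrix.map_apply, Matrix.of_apply, Algebra.smul_def]
  rw [Wr_def, h1, Matrix.det_mul, Wr_def]
  congr 1
  exact ((algebraMap k K).map_det M).symm

/-- `W(g f) = g ^ (n + 1) W(f)`. -/
theorem Wr_mul (D : Fin n → Derivation k K K) (g : K) (f : Fin (n + 1) → K) :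
    Wr D (fun j => g * f j) = g ^ (n + 1) * Wr D f := by
  obtain ⟨T, hT⟩ : ∃ T : Matrix (Fin (n + 1)) (Fin (n + 1)) K, T = Matrix.of fun i l =>
      if i = l then g else if i = 0 then row D g l else 0 := ⟨_, rfl⟩
  have h1 : (Matrix.of fun j => row D (g * f j)) = (Matrix.of fun j => row D (f j)) * T := by
    ext j l
    rw [Matrix.of_apply, Matrix.mul_apply, Fin.sum_univ_succ]
    refine Fin.cases ?_ (fun l => ?_) l
    · rw [row_zero, hT, Finset.sum_eq_zero]
      · simp [mul_comm]
      · intro i _
        simp [Fin.succ_ne_zero]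
    · rw [row_succ, Derivation.leibniz, hT, Finset.sum_eq_single l]
      · simp only [Matrix.of_apply, row_zero, row_succ, smul_eq_mul, if_true,
          if_neg (Fin.succ_ne_zero l).symm]
        ring
      · intro i _ hi
        simp only [Matrix.of_apply]
        rw [if_neg (fun h => hi (Fin.succ_injective _ h)), if_neg (Fin.succ_ne_zero i), mul_zero]
      · intro h; exact absurd (Finset.mem_univ _) h
  have h2 : T.det = g ^ (n + 1) := by
    rw [Matrix.det_of_isUpperTriangular]
    · rw [hT]
      simp
    · intro i j hij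
      rw [hT]
      have h3 : i ≠ j := fun h => by
        rw [h] at hij
        exact lt_irrefl _ hij
      have h4 : i ≠ 0 := fun h => by
        rw [h] at hij
        exact absurd hij (by simp)
      simp [h3, h4]
  rw [Wr_def, h1, Matrix.det_mul, h2, mul_comm, Wr_def]

/-- `W(f) = f_0 ^ (n + 1) det (D_i (f_j / f_0))`. -/
theorem Wr_eq (D : Fin n → Derivation k K K) (f : Fin (n + 1) → K) (h0 : f 0 ≠ 0) :
    Wr D f = f 0 ^ (n + 1) * (Matrix.of fun j i : Fin n => D i (f j.succ / f 0)).det := by
  have h1 : f = fun j => f 0 * (f j / f 0) := by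
    funext j
    rw [mul_div_cancel₀ _ h0]
  conv_lhs => rw [h1]
  rw [Wr_mul, Wr_def]
  congr 1
  rw [Matrix.det_succ_row_zero, Fin.sum_univ_succ, Finset.sum_eq_zero]
  · simp only [Matrix.of_apply, row_zero, div_self h0, Fin.val_zero, pow_zero, one_mul, add_zero]
    congr 1
  · intro i _
    have h2 : D i 1 = 0 := (D i).map_one_eq_zero
    simp only [Matrix.of_apply, div_self h0, row_succ]
    rw [h2]
    ring

end basic

section dual

variable {k K : Type*} [Field k] [Field K] [Algebra k K] {n : ℕ}

/-- `D` is the family of derivations dual to `z`, and it spans the derivations. -/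
structure DB (D : Fin n → Derivation k K K) (z : Fin n → K) : Prop where
  dual : ∀ i j, D i (z j) = if i = j then 1 else 0
  span : ∀ (δ : Derivation k K K) (x : K), δ x = ∑ i, δ (z i) * D i x

/-- The combination `∑ a_i D_i`. -/
noncomputable def comb (D : Fin n → Derivation k K K) (a : Fin n → K) : Derivation k K K :=
  ∑ i, a i • D i

theorem comb_apply (D : Fin n → Derivation k K K) (a : Fin n → K) (x : K) :
    comb D a x = ∑ i, a i * D i x := by
  have h1 := map_sum (Derivation.coeFnAddMonoidHom (R := k) (A := K) (M := K))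
    (fun i => a i • D i) Finset.univ
  have h2 := congrFun h1 x
  rw [Finset.sum_apply] at h2
  exact h2

theorem DB.comb_z {D : Fin n → Derivation k K K} {z : Fin n → K} (h : DB D z) (a : Fin n → K)
    (j : Fin n) : comb D a (z j) = a j := by
  rw [comb_apply, Finset.sum_eq_single j]
  · rw [h.dual, if_pos rfl, mul_one]
  · intro i _ hi
    rw [h.dual, if_neg hi, mul_zero]
  · intro h; exact absurd (Finset.mem_univ _) h

/-- The field of constants of a derivation. -/
def consts (δ : Derivation k K K) : IntermediateField k K where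
  carrier := {x | δ x = 0}
  mul_mem' := by
    intro a b ha hb
    change δ (a * b) = 0
    rw [δ.leibniz, show δ a = 0 from ha, show δ b = 0 from hb, smul_zero, smul_zero, add_zero]
  add_mem' := by
    intro a b ha hb
    change δ (a + b) = 0
    rw [map_add, show δ a = 0 from ha, show δ b = 0 from hb, add_zero]
  algebraMap_mem' c := δ.map_algebraMap c
  inv_mem' := by
    intro a ha
    change δ a⁻¹ = 0
    rw [Derivation.leibniz_inv, show δ a = 0 from ha, smul_zero]

theorem mem_consts {δ : Derivation k K K} {x : K} : x ∈ consts δ ↔ δ x = 0 := Iff.rfl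

/-- `W(f) = 0` iff a non-zero derivation kills the quotients. -/
theorem Wr_eq_zero_iff (D : Fin n → Derivation k K K) (f : Fin (n + 1) → K) (h0 : f 0 ≠ 0) :
    Wr D f = 0 ↔ ∃ a : Fin n → K, a ≠ 0 ∧ ∀ j : Fin n, comb D a (f j.succ / f 0) = 0 := by
  rw [Wr_eq D f h0, mul_eq_zero, or_iff_right (pow_ne_zero _ h0),
    ← Matrix.exists_mulVec_eq_zero_iff]
  refine exists_congr fun a => and_congr Iff.rfl ?_
  rw [funext_iff]
  refine forall_congr' fun j => ?_
  rw [comb_apply]
  constructor
  · intro h
    rw [← show _ = (0 : K) from h]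
    rw [Matrix.mulVec, dotProduct]
    exact Finset.sum_congr rfl fun i _ => by rw [Matrix.of_apply, mul_comm]
  · intro h
    rw [Pi.zero_apply, ← h, Matrix.mulVec, dotProduct]
    exact Finset.sum_congr rfl fun i _ => by rw [Matrix.of_apply, mul_comm]

/-- The powers of an element not killed by `δ` are independent over the constants. -/
theorem pow_indep {p : ℕ} [CharP K p] (δ : Derivation k K K) {w : K}
    (hw : δ w ≠ 0) (d : ℕ) (hd : d ≤ p) (c : ℕ → K) (hc : ∀ i, δ (c i) = 0)
    (hsum : ∑ i ∈ range d, c i * w ^ i = 0) : ∀ i < d, c i = 0 := by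
  induction d generalizing c with
  | zero => intro i hi; omega
  | succ d ih =>
    have h1 : δ (∑ i ∈ range (d + 1), c i * w ^ i) = 0 := by rw [hsum, map_zero]
    rw [Finset.sum_range_succ', pow_zero, mul_one, map_add, hc, add_zero, map_sum] at h1
    have h2 : ∀ i ∈ range d, δ (c (i + 1) * w ^ (i + 1)) =
        δ w * ((((i + 1 : ℕ) : K) * c (i + 1)) * w ^ i) := by
      intro i _
      rw [δ.leibniz, hc, smul_zero, add_zero, δ.leibniz_pow, Nat.add_sub_cancel, smul_eq_mul,
        nsmul_eq_mul, smul_eq_mul]
      ring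
    rw [Finset.sum_congr rfl h2, ← Finset.mul_sum, mul_eq_zero, or_iff_right hw] at h1
    have h3 := ih (by omega) (fun i => ((i + 1 : ℕ) : K) * c (i + 1)) (fun i => by
      rw [δ.leibniz, hc, smul_zero, zero_add]
      have h4 : δ ((i + 1 : ℕ) : K) = 0 := δ.map_natCast _
      rw [h4, smul_zero]) h1
    have h5 : ∀ i < d, c (i + 1) = 0 := by
      intro i hi
      have h6 := h3 i hi
      rw [mul_eq_zero] at h6
      refine h6.resolve_left fun h7 => ?_
      rw [CharP.cast_eq_zero_iff K p] at h7
      have := Nat.le_of_dvd (by omega) h7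
      omega
    intro i hi
    rcases Nat.eq_zero_or_pos i with rfl | hpos
    · rw [Finset.sum_range_succ', Finset.sum_eq_zero, zero_add, pow_zero, mul_one] at hsum
      · exact hsum
      · intro i hi
        rw [h5 i (Finset.mem_range.1 hi), zero_mul]
    · obtain ⟨i, rfl⟩ : ∃ j, i = j + 1 := ⟨i - 1, by omega⟩
      exact h5 i (by omega)

end dual

end Pool.Agent.TGh33
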